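import Pool.Agent.H900R3.Dir.Plane

open Set Filter Topology MeasureTheory
open scoped ContDiff Interval

namespace Pool.Agent.H900R3.Liou
open Pool.Agent.H900R3.Dir

/-- partial derivative in the first coordinate -/
noncomputable def dX (φ : ℂ → ℝ) : ℂ → ℝ := fun z => fderiv ℝ φ z 1
/-- partial derivative in the second coordinate -/
noncomputable def dY (φ : ℂ → ℝ) : ℂ → ℝ := fun z => fderiv ℝ φ z Complex.I

theorem dX_smooth {φ : ℂ → ℝ} (h : ContDiff ℝ ∞ φ) : ContDiff ℝ ∞ (dX φ) :=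
  (h.fderiv_right (m := ∞) (by simp)).clm_apply contDiff_const

theorem dY_smooth {φ : ℂ → ℝ} (h : ContDiff ℝ ∞ φ) : ContDiff ℝ ∞ (dY φ) :=
  (h.fderiv_right (m := ∞) (by simp)).clm_apply contDiff_const

theorem one_of {φ : ℂ → ℝ} (h : ContDiff ℝ ∞ φ) : ContDiff ℝ 1 φ := h.of_le (by
  exact_mod_cast le_top)

theorem diff_of {φ : ℂ → ℝ} (h : ContDiff ℝ ∞ φ) (z : ℂ) : DifferentiableAt ℝ φ z :=
  (h.differentiable (by simp)) z

theorem hdX {φ : ℂ → ℝ} (h : ContDiff ℝ ∞ φ) (x y : ℝ) :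
    HasDerivAt (fun x : ℝ => φ ⟨x, y⟩) (dX φ ⟨x, y⟩) x := deriv_x (one_of h) x y

theorem hdY {φ : ℂ → ℝ} (h : ContDiff ℝ ∞ φ) (x y : ℝ) :
    HasDerivAt (fun y : ℝ => φ ⟨x, y⟩) (dY φ ⟨x, y⟩) y := deriv_y (one_of h) x y

theorem dXY {φ : ℂ → ℝ} (h : ContDiff ℝ ∞ φ) : dX (dY φ) = dY (dX φ) := by
  have h2 : ContDiff ℝ ∞ (fderiv ℝ φ) := h.fderiv_right (m := ∞) (by simp)
  have h3 : ∀ z, DifferentiableAt ℝ (fderiv ℝ φ) z := fun z => (h2.differentiable (by simp)) z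
  funext z
  have e1 : ∀ v w : ℂ, fderiv ℝ (fun z => fderiv ℝ φ z v) z w = fderiv ℝ (fderiv ℝ φ) z w v := by
    intro v w
    have : HasFDerivAt (fun z => fderiv ℝ φ z v)
        ((ContinuousLinearMap.apply ℝ ℝ v).comp (fderiv ℝ (fderiv ℝ φ) z)) z :=
      (ContinuousLinearMap.apply ℝ ℝ v).hasFDerivAt.comp z (h3 z).hasFDerivAt
    rw [this.fderiv]; rfl
  have hs : IsSymmSndFDerivAt ℝ φ z := h.contDiffAt.isSymmSndFDerivAt (by
    simp only [minSmoothness_of_isRCLikeNormedField]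
    exact (WithTop.coe_le_coe.2 (le_top : (2 : ℕ∞) ≤ ⊤)))
  show fderiv ℝ (fun z => fderiv ℝ φ z Complex.I) z 1 = fderiv ℝ (fun z => fderiv ℝ φ z 1) z Complex.I
  rw [e1, e1]
  exact hs 1 Complex.I

theorem dX_add {φ ψ : ℂ → ℝ} (h : ContDiff ℝ ∞ φ) (h' : ContDiff ℝ ∞ ψ) :
    dX (fun z => φ z + ψ z) = fun z => dX φ z + dX ψ z := by
  funext z
  show fderiv ℝ (fun z => φ z + ψ z) z 1 = _
  rw [fderiv_fun_add (diff_of h z) (diff_of h' z)]; rfl

theorem dY_add {φ ψ : ℂ → ℝ} (h : ContDiff ℝ ∞ φ) (h' : ContDiff ℝ ∞ ψ) :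
    dY (fun z => φ z + ψ z) = fun z => dY φ z + dY ψ z := by
  funext z
  show fderiv ℝ (fun z => φ z + ψ z) z Complex.I = _
  rw [fderiv_fun_add (diff_of h z) (diff_of h' z)]; rfl

theorem dX_smul {φ : ℂ → ℝ} (h : ContDiff ℝ ∞ φ) (c : ℝ) :
    dX (fun z => c * φ z) = fun z => c * dX φ z := by
  funext z
  show fderiv ℝ (fun z => c * φ z) z 1 = _
  rw [fderiv_const_mul (diff_of h z)]; rfl

theorem dY_smul {φ : ℂ → ℝ} (h : ContDiff ℝ ∞ φ) (c : ℝ) :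
    dY (fun z => c * φ z) = fun z => c * dY φ z := by
  funext z
  show fderiv ℝ (fun z => c * φ z) z Complex.I = _
  rw [fderiv_const_mul (diff_of h z)]; rfl

theorem re_smooth {f : ℝ → ℝ} (hf : ContDiff ℝ ∞ f) : ContDiff ℝ ∞ fun z : ℂ => f z.re :=
  hf.comp Complex.reCLM.contDiff

theorem im_smooth {f : ℝ → ℝ} (hf : ContDiff ℝ ∞ f) : ContDiff ℝ ∞ fun z : ℂ => f z.im :=
  hf.comp Complex.imCLM.contDiff

theorem dY_re {f : ℝ → ℝ} (hf : ContDiff ℝ ∞ f) (z : ℂ) : dY (fun z : ℂ => f z.re) z = 0 := by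
  have h1 : HasFDerivAt (fun z : ℂ => f z.re) ((deriv f z.re) • Complex.reCLM) z :=
    ((hf.differentiable (by simp)) z.re).hasDerivAt.comp_hasFDerivAt z Complex.reCLM.hasFDerivAt
  show fderiv ℝ _ z Complex.I = 0
  rw [h1.fderiv]; simp

theorem dX_im {f : ℝ → ℝ} (hf : ContDiff ℝ ∞ f) (z : ℂ) : dX (fun z : ℂ => f z.im) z = 0 := by
  have h1 : HasFDerivAt (fun z : ℂ => f z.im) ((deriv f z.im) • Complex.imCLM) z :=
    ((hf.differentiable (by simp)) z.im).hasDerivAt.comp_hasFDerivAt z Complex.imCLM.hasFDerivAt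
  show fderiv ℝ _ z 1 = 0
  rw [h1.fderiv]; simp

theorem dX_mul {φ ψ : ℂ → ℝ} (h : ContDiff ℝ ∞ φ) (h' : ContDiff ℝ ∞ ψ) :
    dX (fun z => φ z * ψ z) = fun z => dX φ z * ψ z + φ z * dX ψ z := by
  funext z
  show fderiv ℝ (fun z => φ z * ψ z) z 1 = _
  rw [fderiv_fun_mul (diff_of h z) (diff_of h' z)]
  show φ z * fderiv ℝ ψ z 1 + ψ z * fderiv ℝ φ z 1 = _
  unfold dX; ring

theorem dY_mul {φ ψ : ℂ → ℝ} (h : ContDiff ℝ ∞ φ) (h' : ContDiff ℝ ∞ ψ) :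
    dY (fun z => φ z * ψ z) = fun z => dY φ z * ψ z + φ z * dY ψ z := by
  funext z
  show fderiv ℝ (fun z => φ z * ψ z) z Complex.I = _
  rw [fderiv_fun_mul (diff_of h z) (diff_of h' z)]
  show φ z * fderiv ℝ ψ z Complex.I + ψ z * fderiv ℝ φ z Complex.I = _
  unfold dY; ring

/-- smooth, doubly periodic functions -/
structure Per (a b : ℝ) (φ : ℂ → ℝ) : Prop where
  smooth : ContDiff ℝ ∞ φ
  perX : ∀ z, φ (z + a) = φ z
  perY : ∀ z, φ (z + b * Complex.I) = φ z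

theorem fderiv_trans {φ : ℂ → ℝ} {c : ℂ} (h : ∀ z, φ (z + c) = φ z) (z : ℂ) :
    fderiv ℝ φ (z + c) = fderiv ℝ φ z := by
  have : (fun z => φ (z + c)) = φ := funext h
  conv_rhs => rw [← this]
  rw [fderiv_comp_add_right]

theorem Per.dX {a b : ℝ} {φ : ℂ → ℝ} (h : Per a b φ) : Per a b (dX φ) where
  smooth := dX_smooth h.smooth
  perX z := by unfold Liou.dX; rw [fderiv_trans h.perX]
  perY z := by unfold Liou.dX; rw [fderiv_trans h.perY]

theorem Per.dY {a b : ℝ} {φ : ℂ → ℝ} (h : Per a b φ) : Per a b (dY φ) where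
  smooth := dY_smooth h.smooth
  perX z := by unfold Liou.dY; rw [fderiv_trans h.perX]
  perY z := by unfold Liou.dY; rw [fderiv_trans h.perY]

theorem Per.add {a b : ℝ} {φ ψ : ℂ → ℝ} (h : Per a b φ) (h' : Per a b ψ) :
    Per a b (fun z => φ z + ψ z) where
  smooth := h.smooth.add h'.smooth
  perX z := by rw [h.perX, h'.perX]
  perY z := by rw [h.perY, h'.perY]

theorem Per.mul {a b : ℝ} {φ ψ : ℂ → ℝ} (h : Per a b φ) (h' : Per a b ψ) :
    Per a b (fun z => φ z * ψ z) where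
  smooth := h.smooth.mul h'.smooth
  perX z := by rw [h.perX, h'.perX]
  perY z := by rw [h.perY, h'.perY]

theorem Per.const {a b : ℝ} (c : ℝ) : Per a b (fun _ => c) where
  smooth := contDiff_const
  perX _ := rfl
  perY _ := rfl

theorem Per.reF {a b : ℝ} {f : ℝ → ℝ} (hf : ContDiff ℝ ∞ f) (hp : ∀ x, f (x + a) = f x) :
    Per a b (fun z => f z.re) where
  smooth := re_smooth hf
  perX z := by simp [hp]
  perY z := by simp

theorem Per.imF {a b : ℝ} {f : ℝ → ℝ} (hf : ContDiff ℝ ∞ f) (hp : ∀ x, f (x + b) = f x) :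
    Per a b (fun z => f z.im) where
  smooth := im_smooth hf
  perX z := by simp
  perY z := by simp [hp]

/-- data of a Liouville torus -/
structure Data where
  a : ℝ
  b : ℝ
  f : ℝ → ℝ
  h : ℝ → ℝ
  lam : ℝ
  ha : 0 < a
  hb : 0 < b
  hf : ContDiff ℝ ∞ f
  hh : ContDiff ℝ ∞ h
  pf : ∀ x, f (x + a) = f x
  ph : ∀ x, h (x + b) = h x
  F : ℝ
  H : ℝ
  hF : ∀ x, f x ≤ F
  hH : ∀ x, h x ≤ H
  hlam : 0 < lam

variable (D : Data)

/-- operator in the first variable -/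
noncomputable def L (φ : ℂ → ℝ) : ℂ → ℝ := fun z => dX (dX φ) z + D.lam * D.f z.re * φ z
/-- operator in the second variable -/
noncomputable def B (φ : ℂ → ℝ) : ℂ → ℝ := fun z => dY (dY φ) z + D.lam * D.h z.im * φ z

theorem lf_smooth : ContDiff ℝ ∞ fun z : ℂ => D.lam * D.f z.re :=
  contDiff_const.mul (re_smooth D.hf)
theorem lh_smooth : ContDiff ℝ ∞ fun z : ℂ => D.lam * D.h z.im :=
  contDiff_const.mul (im_smooth D.hh)

theorem dY_lf (z : ℂ) : dY (fun z : ℂ => D.lam * D.f z.re) z = 0 := by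
  rw [dY_smul (re_smooth D.hf)]; simp [dY_re D.hf]
theorem dX_lh (z : ℂ) : dX (fun z : ℂ => D.lam * D.h z.im) z = 0 := by
  rw [dX_smul (im_smooth D.hh)]; simp [dX_im D.hh]

theorem dY_lfm {ψ : ℂ → ℝ} (h : ContDiff ℝ ∞ ψ) :
    dY (fun z => D.lam * D.f z.re * ψ z) = fun z => D.lam * D.f z.re * dY ψ z := by
  rw [dY_mul (lf_smooth D) h]; funext z; rw [dY_lf]; ring
theorem dX_lhm {ψ : ℂ → ℝ} (h : ContDiff ℝ ∞ ψ) :
    dX (fun z => D.lam * D.h z.im * ψ z) = fun z => D.lam * D.h z.im * dX ψ z := by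
  rw [dX_mul (lh_smooth D) h]; funext z; rw [dX_lh]; ring

theorem L_smooth {φ : ℂ → ℝ} (h : ContDiff ℝ ∞ φ) : ContDiff ℝ ∞ (L D φ) :=
  (dX_smooth (dX_smooth h)).add ((lf_smooth D).mul h)
theorem B_smooth {φ : ℂ → ℝ} (h : ContDiff ℝ ∞ φ) : ContDiff ℝ ∞ (B D φ) :=
  (dY_smooth (dY_smooth h)).add ((lh_smooth D).mul h)

theorem LB {φ : ℂ → ℝ} (h : ContDiff ℝ ∞ φ) : L D (B D φ) = B D (L D φ) := by
  have hx := dX_smooth h
  have hy := dY_smooth h
  have hxx := dX_smooth hx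
  have hyy := dY_smooth hy
  have e1 : dX (B D φ) = fun z => dX (dY (dY φ)) z + D.lam * D.h z.im * dX φ z := by
    unfold B; rw [dX_add hyy ((lh_smooth D).mul h), dX_lhm D h]
  have e2 : dX (dX (B D φ)) = fun z => dX (dX (dY (dY φ))) z + D.lam * D.h z.im * dX (dX φ) z := by
    rw [e1, dX_add (dX_smooth hyy) ((lh_smooth D).mul hx), dX_lhm D hx]
  have e3 : dY (L D φ) = fun z => dY (dX (dX φ)) z + D.lam * D.f z.re * dY φ z := by
    unfold L; rw [dY_add hxx ((lf_smooth D).mul h), dY_lfm D h]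
  have e4 : dY (dY (L D φ)) = fun z => dY (dY (dX (dX φ))) z + D.lam * D.f z.re * dY (dY φ) z := by
    rw [e3, dY_add (dY_smooth hxx) ((lf_smooth D).mul hy), dY_lfm D hy]
  have e5 : dX (dX (dY (dY φ))) = dY (dY (dX (dX φ))) := by
    rw [dXY hy, dXY h, dXY (dY_smooth hx), dXY hx]
  funext z
  show dX (dX (B D φ)) z + D.lam * D.f z.re * B D φ z =
    dY (dY (L D φ)) z + D.lam * D.h z.im * L D φ z
  rw [e2, e4, e5]
  simp only [B, L]
  ring

/-- doubly periodic solutions -/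
structure Sol (φ : ℂ → ℝ) : Prop extends Per D.a D.b φ where
  pde : ∀ z, L D φ z + B D φ z = 0

theorem Per.L {φ : ℂ → ℝ} (h : Per D.a D.b φ) : Per D.a D.b (L D φ) :=
  h.dX.dX.add (((Per.const D.lam).mul (Per.reF D.hf D.pf)).mul h)

theorem Sol.LB {φ : ℂ → ℝ} (h : Sol D φ) : L D φ = fun z => (-1) * B D φ z := by
  funext z; have := h.pde z; linarith

theorem L_smul {φ : ℂ → ℝ} (h : ContDiff ℝ ∞ φ) (c : ℝ) :
    L D (fun z => c * φ z) = fun z => c * L D φ z := by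
  unfold L
  rw [dX_smul h, dX_smul (dX_smooth h)]
  funext z; ring

theorem B_smul {φ : ℂ → ℝ} (h : ContDiff ℝ ∞ φ) (c : ℝ) :
    B D (fun z => c * φ z) = fun z => c * B D φ z := by
  unfold B
  rw [dY_smul h, dY_smul (dY_smooth h)]
  funext z; ring

theorem L_add {φ ψ : ℂ → ℝ} (h : ContDiff ℝ ∞ φ) (h' : ContDiff ℝ ∞ ψ) :
    L D (fun z => φ z + ψ z) = fun z => L D φ z + L D ψ z := by
  unfold L
  rw [dX_add h h', dX_add (dX_smooth h) (dX_smooth h')]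
  funext z; ring

theorem B_add {φ ψ : ℂ → ℝ} (h : ContDiff ℝ ∞ φ) (h' : ContDiff ℝ ∞ ψ) :
    B D (fun z => φ z + ψ z) = fun z => B D φ z + B D ψ z := by
  unfold B
  rw [dY_add h h', dY_add (dY_smooth h) (dY_smooth h')]
  funext z; ring

theorem Sol.L {φ : ℂ → ℝ} (h : Sol D φ) : Sol D (L D φ) where
  toPer := Per.L D h.toPer
  pde z := by
    rw [← Liou.LB D h.smooth]
    conv_lhs => rw [h.LB]
    rw [L_smul D (B_smooth D h.smooth)]
    ring

end Pool.Agent.H900R3.Liou
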