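import Pool.Agent.H900R3.Liou.Basic

open Set Filter Topology MeasureTheory
open scoped ContDiff Interval

namespace Pool.Agent.H900R3.Liou
open Pool.Agent.H900R3.Dir

/-- iterated integral on a rectangle -/
noncomputable def R2 (x0 x1 y0 y1 : ℝ) (φ : ℂ → ℝ) : ℝ := ∫ x in x0..x1, ∫ y in y0..y1, φ ⟨x, y⟩

section
variable {x0 x1 y0 y1 : ℝ} {φ ψ : ℂ → ℝ}

theorem R2_add (hφ : Continuous φ) (hψ : Continuous ψ) :
    R2 x0 x1 y0 y1 (fun z => φ z + ψ z) = R2 x0 x1 y0 y1 φ + R2 x0 x1 y0 y1 ψ := by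
  unfold R2
  rw [← intervalIntegral.integral_add ((cont_inner hφ _ _).intervalIntegrable _ _)
    ((cont_inner hψ _ _).intervalIntegrable _ _)]
  refine intervalIntegral.integral_congr fun x _ => ?_
  exact intervalIntegral.integral_add ((cont_y hφ _).intervalIntegrable _ _)
    ((cont_y hψ _).intervalIntegrable _ _)

theorem R2_smul (c : ℝ) : R2 x0 x1 y0 y1 (fun z => c * φ z) = c * R2 x0 x1 y0 y1 φ := by
  unfold R2
  rw [← intervalIntegral.integral_const_mul]
  refine intervalIntegral.integral_congr fun x _ => ?_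
  exact intervalIntegral.integral_const_mul _ _

theorem R2_mono (h1 : x0 ≤ x1) (h2 : y0 ≤ y1) (hφ : Continuous φ) (hψ : Continuous ψ)
    (hle : ∀ z, φ z ≤ ψ z) : R2 x0 x1 y0 y1 φ ≤ R2 x0 x1 y0 y1 ψ := by
  unfold R2
  refine intervalIntegral.integral_mono_on h1
    ((cont_inner hφ _ _).intervalIntegrable _ _) ((cont_inner hψ _ _).intervalIntegrable _ _) ?_
  intro x _
  exact intervalIntegral.integral_mono_on h2 ((cont_y hφ _).intervalIntegrable _ _)
    ((cont_y hψ _).intervalIntegrable _ _) fun y _ => hle _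

theorem R2_nonneg (h1 : x0 ≤ x1) (h2 : y0 ≤ y1) (hle : ∀ z, 0 ≤ φ z) : 0 ≤ R2 x0 x1 y0 y1 φ :=
  intervalIntegral.integral_nonneg h1 fun x _ =>
    intervalIntegral.integral_nonneg h2 fun y _ => hle _

/-- Poincare inequality on a rectangle -/
theorem poinR {f : ℂ → ℝ} (hf : ContDiff ℝ 1 f) (hx : x0 < x1) (hy : y0 < y1)
    (h0 : R2 x0 x1 y0 y1 f = 0) :
    R2 x0 x1 y0 y1 (fun z => f z ^ 2) ≤
      (x1 - x0) ^ 2 / 6 * R2 x0 x1 y0 y1 (fun z => dX f z ^ 2) +
      (y1 - y0) ^ 2 / 6 * R2 x0 x1 y0 y1 (fun z => dY f z ^ 2) := by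
  have hfc : Continuous f := hf.continuous
  have hX : Continuous (dX f) := cont_fd hf 1
  have hY : Continuous (dY f) := cont_fd hf Complex.I
  set s := y1 - y0 with hs
  set r := x1 - x0 with hr
  have hs0 : 0 < s := by rw [hs]; linarith
  have hr0 : 0 < r := by rw [hr]; linarith
  set A : ℝ → ℝ := fun x => ∫ y in y0..y1, f ⟨x, y⟩ with hA
  set A' : ℝ → ℝ := fun x => ∫ y in y0..y1, dX f ⟨x, y⟩ with hA'
  have hAc : Continuous A := cont_inner hfc _ _
  have hA'c : Continuous A' := cont_inner hX _ _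
  -- step 1
  have s1 : ∀ x, s * (∫ y in y0..y1, f ⟨x, y⟩ ^ 2) - A x ^ 2 ≤
      s ^ 3 / 6 * ∫ y in y0..y1, dY f ⟨x, y⟩ ^ 2 := by
    intro x
    exact var1 hy (cont_y hfc x) (cont_y hY x) (fun y _ y' _ => ftc_y hf x y y')
  have hf2 : Continuous fun z => f z ^ 2 := by fun_prop
  have hX2 : Continuous fun z => dX f z ^ 2 := hX.pow 2
  have hY2 : Continuous fun z => dY f z ^ 2 := hY.pow 2
  have s2 : s * R2 x0 x1 y0 y1 (fun z => f z ^ 2) - ∫ x in x0..x1, A x ^ 2 ≤
      s ^ 3 / 6 * R2 x0 x1 y0 y1 (fun z => dY f z ^ 2) := by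
    unfold R2
    rw [← intervalIntegral.integral_const_mul, ← intervalIntegral.integral_const_mul,
      ← intervalIntegral.integral_sub]
    · refine intervalIntegral.integral_mono_on hx.le ?_ ?_ fun x _ => s1 x
      · exact (((cont_inner hf2 _ _).const_mul s).sub (hAc.pow 2)).intervalIntegrable _ _
      · exact ((cont_inner hY2 _ _).const_mul _).intervalIntegrable _ _
    · exact ((cont_inner hf2 _ _).const_mul s).intervalIntegrable _ _
    · exact (hAc.pow 2).intervalIntegrable _ _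
  -- step 2
  have ftcA : ∀ x x', x' ≤ x → A x - A x' = ∫ t in x'..x, A' t := by
    intro x x' hx
    rw [hA, hA']
    simp only
    rw [← intervalIntegral.integral_sub ((cont_y hfc _).intervalIntegrable _ _)
      ((cont_y hfc _).intervalIntegrable _ _)]
    rw [swapII hx hy.le (cont_unc hX)]
    refine intervalIntegral.integral_congr fun y _ => ?_
    exact ftc_x hf x x' y
  have ftcA' : ∀ x ∈ Icc x0 x1, ∀ x' ∈ Icc x0 x1, A x - A x' = ∫ t in x'..x, A' t := by
    intro x _ x' _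
    rcases le_total x' x with hx | hx
    · exact ftcA x x' hx
    · rw [intervalIntegral.integral_symm, ← ftcA x' x hx]; ring
  have s3 := var1 hx hAc hA'c ftcA'
  rw [← hr] at s3
  have hA0 : ∫ t in x0..x1, A t = 0 := h0
  rw [hA0] at s3
  have s4 : ∫ t in x0..x1, A' t ^ 2 ≤ s * R2 x0 x1 y0 y1 (fun z => dX f z ^ 2) := by
    unfold R2
    rw [← intervalIntegral.integral_const_mul]
    refine intervalIntegral.integral_mono_on hx.le ((hA'c.pow 2).intervalIntegrable _ _)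
      (((cont_inner hX2 _ _).const_mul _).intervalIntegrable _ _) fun x _ => ?_
    exact cs1 hy.le (cont_y hX x)
  set α := R2 x0 x1 y0 y1 (fun z => f z ^ 2)
  set p := R2 x0 x1 y0 y1 (fun z => dX f z ^ 2)
  set q := R2 x0 x1 y0 y1 (fun z => dY f z ^ 2)
  set β := ∫ x in x0..x1, A x ^ 2
  have s5 : r * β ≤ r ^ 3 / 6 * (s * p) := by
    have h6 : (0 : ℝ) ≤ r ^ 3 / 6 := by positivity
    have := mul_le_mul_of_nonneg_left s4 h6
    nlinarith
  have s6 : β ≤ r ^ 2 / 6 * (s * p) := by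
    have : r * β ≤ r * (r ^ 2 / 6 * (s * p)) := by
      have e : r * (r ^ 2 / 6 * (s * p)) = r ^ 3 / 6 * (s * p) := by ring
      rw [e]; exact s5
    exact le_of_mul_le_mul_left this hr0
  have s7 : s * α ≤ s * (r ^ 2 / 6 * p + s ^ 2 / 6 * q) := by
    have e : s * (r ^ 2 / 6 * p + s ^ 2 / 6 * q) = r ^ 2 / 6 * (s * p) + s ^ 3 / 6 * q := by ring
    rw [e]; linarith
  exact le_of_mul_le_mul_left s7 hs0

theorem R2_split {n : ℕ} (r s : ℝ) (hφ : Continuous φ) :
    R2 0 (n * r) 0 (n * s) φ = ∑ i ∈ Finset.range n, ∑ j ∈ Finset.range n,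
      R2 (i * r) ((i + 1 : ℕ) * r) (j * s) ((j + 1 : ℕ) * s) φ := by
  have h1 : ∀ i : ℕ, ∑ j ∈ Finset.range n, R2 (i * r) ((i + 1 : ℕ) * r) (j * s) ((j + 1 : ℕ) * s) φ
      = R2 (i * r) ((i + 1 : ℕ) * r) 0 (n * s) φ := by
    intro i
    unfold R2
    rw [← intervalIntegral.integral_finsetSum]
    · refine intervalIntegral.integral_congr fun x _ => ?_
      have := intervalIntegral.sum_integral_adjacent_intervals (f := fun y => φ ⟨x, y⟩)
        (μ := volume) (n := n) (a := fun j : ℕ => (j : ℝ) * s)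
        (fun k _ => (cont_y hφ x).intervalIntegrable _ _)
      simpa using this
    · intro j _
      exact (cont_inner hφ _ _).intervalIntegrable _ _
  rw [Finset.sum_congr rfl fun i _ => h1 i]
  unfold R2
  have := intervalIntegral.sum_integral_adjacent_intervals
    (f := fun x => ∫ y in (0 : ℝ)..(n * s), φ ⟨x, y⟩)
    (μ := volume) (n := n) (a := fun j : ℕ => (j : ℝ) * r)
    (fun k _ => (cont_inner hφ _ _).intervalIntegrable _ _)
  simpa using this.symm

end

/-- integral over a period -/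
noncomputable def J (a b : ℝ) (φ : ℂ → ℝ) : ℝ := R2 0 a 0 b φ

theorem poinJ {a b : ℝ} (ha : 0 < a) (hb : 0 < b) {n : ℕ} (hn : 0 < n) {f : ℂ → ℝ}
    (hf : ContDiff ℝ 1 f)
    (h0 : ∀ i < n, ∀ j < n, R2 (i * (a / n)) ((i + 1 : ℕ) * (a / n)) (j * (b / n))
      ((j + 1 : ℕ) * (b / n)) f = 0) :
    J a b (fun z => f z ^ 2) ≤ (a / n) ^ 2 / 6 * J a b (fun z => dX f z ^ 2) +
      (b / n) ^ 2 / 6 * J a b (fun z => dY f z ^ 2) := by
  have hn' : (0 : ℝ) < n := by exact_mod_cast hn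
  have hX : Continuous (dX f) := cont_fd hf 1
  have hY : Continuous (dY f) := cont_fd hf Complex.I
  have hf2 : Continuous fun z => f z ^ 2 := hf.continuous.pow 2
  have ea : (n : ℝ) * (a / n) = a := by field_simp
  have eb : (n : ℝ) * (b / n) = b := by field_simp
  have key : ∀ {φ : ℂ → ℝ}, Continuous φ → J a b φ =
      ∑ i ∈ Finset.range n, ∑ j ∈ Finset.range n,
        R2 (i * (a / n)) ((i + 1 : ℕ) * (a / n)) (j * (b / n)) ((j + 1 : ℕ) * (b / n)) φ := by
    intro φ hφ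
    have := R2_split (n := n) (a / n) (b / n) hφ
    rw [ea, eb] at this
    exact this
  have hX2 : Continuous fun z => dX f z ^ 2 := hX.pow 2
  have hY2 : Continuous fun z => dY f z ^ 2 := hY.pow 2
  rw [key hf2, key hX2, key hY2, Finset.mul_sum, Finset.mul_sum,
    ← Finset.sum_add_distrib]
  refine Finset.sum_le_sum fun i hi => ?_
  rw [Finset.mul_sum, Finset.mul_sum, ← Finset.sum_add_distrib]
  refine Finset.sum_le_sum fun j hj => ?_
  have hi' := Finset.mem_range.1 hi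
  have hj' := Finset.mem_range.1 hj
  have e1 : ((i + 1 : ℕ) : ℝ) * (a / n) - i * (a / n) = a / n := by push_cast; ring
  have e2 : ((j + 1 : ℕ) : ℝ) * (b / n) - j * (b / n) = b / n := by push_cast; ring
  have h1 : (0 : ℝ) < a / n := by positivity
  have h2 : (0 : ℝ) < b / n := by positivity
  have := poinR hf (x0 := i * (a / n)) (x1 := (i + 1 : ℕ) * (a / n)) (y0 := j * (b / n))
    (y1 := (j + 1 : ℕ) * (b / n)) (by linarith) (by linarith) (h0 i hi' j hj')
  rw [e1, e2] at this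
  exact this

theorem zero_of_Icc {g : ℝ → ℝ} (hg : Continuous g) (h0 : ∀ x, 0 ≤ g x) {a : ℝ} (ha : 0 < a)
    (hi : ∫ x in (0 : ℝ)..a, g x = 0) : ∀ x ∈ Icc 0 a, g x = 0 := by
  intro x hx
  by_contra hne
  have h1 : 0 < g x := lt_of_le_of_ne (h0 x) (Ne.symm hne)
  have := intervalIntegral.integral_pos ha hg.continuousOn (fun x _ => h0 x) ⟨x, hx, h1⟩
  linarith

/-- reduction to the fundamental rectangle -/
noncomputable def rd (a b : ℝ) (z : ℂ) : ℂ :=
  z - (⌊z.re / a⌋ : ℤ) * (a : ℂ) - (⌊z.im / b⌋ : ℤ) * (b * Complex.I)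

theorem rd_re (a b : ℝ) (z : ℂ) : (rd a b z).re = z.re - ⌊z.re / a⌋ * a := by
  simp [rd]
theorem rd_im (a b : ℝ) (z : ℂ) : (rd a b z).im = z.im - ⌊z.im / b⌋ * b := by
  simp [rd]

theorem fl_mem {a : ℝ} (ha : 0 < a) (x : ℝ) : x - ⌊x / a⌋ * a ∈ Ico 0 a := by
  have h1 := Int.floor_le (x / a)
  have h2 := Int.lt_floor_add_one (x / a)
  rw [le_div_iff₀ ha] at h1
  rw [div_lt_iff₀ ha] at h2
  constructor <;> linarith

theorem rd_mem {a b : ℝ} (ha : 0 < a) (hb : 0 < b) (z : ℂ) :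
    (rd a b z).re ∈ Ico 0 a ∧ (rd a b z).im ∈ Ico 0 b := by
  rw [rd_re, rd_im]
  exact ⟨fl_mem ha _, fl_mem hb _⟩

theorem Per.rd {a b : ℝ} {φ : ℂ → ℝ} (h : Per a b φ) (z : ℂ) : φ (rd a b z) = φ z := by
  have h1 : Function.Periodic φ (a : ℂ) := h.perX
  have h2 : Function.Periodic φ (b * Complex.I) := h.perY
  unfold Liou.rd
  rw [h2.sub_int_mul_eq, h1.sub_int_mul_eq]

theorem J_zero {a b : ℝ} (ha : 0 < a) (hb : 0 < b) {φ : ℂ → ℝ} (h : Per a b φ)
    (h0 : J a b (fun z => φ z * φ z) = 0) : φ = 0 := by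
  have hc : Continuous fun z => φ z * φ z := h.smooth.continuous.mul h.smooth.continuous
  have h1 := zero_of_Icc (cont_inner hc 0 b) (fun x => intervalIntegral.integral_nonneg hb.le
    fun y _ => mul_self_nonneg _) ha h0
  have h2 : ∀ x ∈ Icc 0 a, ∀ y ∈ Icc 0 b, φ ⟨x, y⟩ = 0 := by
    intro x hx y hy
    have := zero_of_Icc (cont_y hc x) (fun y => mul_self_nonneg _) hb (h1 x hx) y hy
    exact mul_self_eq_zero.1 this
  funext z
  have h3 := rd_mem ha hb z
  rw [← h.rd z]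
  exact h2 _ (Ico_subset_Icc_self h3.1) _ (Ico_subset_Icc_self h3.2)

theorem J_dX {a b : ℝ} (ha : 0 < a) (hb : 0 < b) {φ : ℂ → ℝ} (h : Per a b φ) :
    J a b (dX φ) = 0 := by
  have hc : Continuous (dX φ) := (dX_smooth h.smooth).continuous
  unfold J R2
  rw [swapII ha.le hb.le (cont_unc hc)]
  have : ∀ y : ℝ, ∫ x in (0 : ℝ)..a, dX φ ⟨x, y⟩ = 0 := by
    intro y
    have h1 := ftc_x (one_of h.smooth) a 0 y
    have h2 := h.perX ⟨0, y⟩
    have e : (⟨0, y⟩ : ℂ) + a = ⟨a, y⟩ := by apply Complex.ext <;> simp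
    rw [e] at h2
    unfold dX
    rw [← h1, h2]; ring
  simp [this]

theorem J_dY {a b : ℝ} {φ : ℂ → ℝ} (h : Per a b φ) : J a b (dY φ) = 0 := by
  unfold J R2
  have : ∀ x : ℝ, ∫ y in (0 : ℝ)..b, dY φ ⟨x, y⟩ = 0 := by
    intro x
    have h1 := ftc_y (one_of h.smooth) x b 0
    have h2 := h.perY ⟨x, 0⟩
    have e : (⟨x, 0⟩ : ℂ) + b * Complex.I = ⟨x, b⟩ := by apply Complex.ext <;> simp
    rw [e] at h2
    unfold dY
    rw [← h1, h2]; ring
  simp [this]

section
variable {a b : ℝ} {φ ψ : ℂ → ℝ}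

theorem J_add (hφ : Continuous φ) (hψ : Continuous ψ) :
    J a b (fun z => φ z + ψ z) = J a b φ + J a b ψ := R2_add hφ hψ

theorem J_smul (c : ℝ) : J a b (fun z => c * φ z) = c * J a b φ := R2_smul c

theorem J_mono (ha : 0 < a) (hb : 0 < b) (hφ : Continuous φ) (hψ : Continuous ψ)
    (hle : ∀ z, φ z ≤ ψ z) : J a b φ ≤ J a b ψ := R2_mono ha.le hb.le hφ hψ hle

/-- integration by parts -/
theorem J_partsX (ha : 0 < a) (hb : 0 < b) (h : Per a b φ) (h' : Per a b ψ) :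
    J a b (fun z => dX φ z * ψ z) = - J a b (fun z => φ z * dX ψ z) := by
  have h1 := J_dX ha hb (h.mul h')
  rw [dX_mul h.smooth h'.smooth, J_add (h.dX.mul h').smooth.continuous
    (h.mul h'.dX).smooth.continuous] at h1
  linarith

theorem J_partsY (h : Per a b φ) (h' : Per a b ψ) :
    J a b (fun z => dY φ z * ψ z) = - J a b (fun z => φ z * dY ψ z) := by
  have h1 := J_dY (h.mul h')
  rw [dY_mul h.smooth h'.smooth, J_add (h.dY.mul h').smooth.continuous
    (h.mul h'.dY).smooth.continuous] at h1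
  linarith

end

end Pool.Agent.H900R3.Liou
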