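import Pool.Agent.H900R3.Liou.Zeros

open Set Filter Topology MeasureTheory
open scoped ContDiff Interval

namespace Pool.Agent.H900R3.Liou

/-- for large powers the zeros are well separated -/
theorem near {S : Finset ℝ} {w w1 : ℝ → ℝ → ℝ} {r : ℝ → ℝ} {a : ℝ} (ha : 0 < a)
    (h1 : ∀ μ x, HasDerivAt (w μ) (w1 μ x) x) (hc1 : ∀ μ, Continuous (w1 μ))
    (hp : ∀ μ x, w μ (x + a) = w μ x)
    {v v1 Q : ℝ → ℝ} (hv1 : ∀ x, HasDerivAt v (v1 x) x) (hv2 : ∀ x, HasDerivAt v1 (-Q x * v x) x)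
    (hvp : ∀ x, v (x + a) = v x) (hQc : Continuous Q) (hvc : Continuous v1)
    (hv : ∃ x, v x ≠ 0) (hr0 : ∀ μ ∈ S, 0 ≤ r μ) (hr1 : ∀ μ ∈ S, r μ < 1)
    {κ γ : ℝ} (hκ : 0 < κ) (hQ : ∀ x, Q x < κ ^ 2) (hγ : κ * γ < Real.pi) :
    ∃ j : ℕ, ∀ ξ η, ξ < η → v ξ + ∑ μ ∈ S, r μ ^ j * w μ ξ = 0 →
      v η + ∑ μ ∈ S, r μ ^ j * w μ η = 0 → γ < η - ξ := by
  by_contra hcon
  push Not at hcon
  choose ξ η hlt hξ hη hle using hcon
  -- shift
  set m : ℕ → ℤ := fun j => ⌊ξ j / a⌋ with hm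
  set ξ' : ℕ → ℝ := fun j => ξ j - m j * a with hξ'
  set η' : ℕ → ℝ := fun j => η j - m j * a with hη'
  have k1 : ∀ j, ξ' j ∈ Icc 0 a := fun j => Ico_subset_Icc_self (fl_mem' ha (ξ j))
  have k2 : ∀ j, η' j ∈ Icc 0 (a + |γ|) := by
    intro j
    have a1 := k1 j
    have a2 := hlt j
    have a3 := hle j
    have a4 := le_abs_self γ
    simp only [hξ', mem_Icc] at a1
    simp only [hη', mem_Icc]
    constructor <;> linarith [a1.1, a1.2]
  have k3 : ∀ j, v (ξ' j) + ∑ μ ∈ S, r μ ^ j * w μ (ξ' j) = 0 := by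
    intro j
    rw [← hξ j]
    simp only [hξ']
    rw [per_int hvp]
    congr 1
    refine Finset.sum_congr rfl fun μ _ => ?_
    rw [per_int (hp μ)]
  have k4 : ∀ j, v (η' j) + ∑ μ ∈ S, r μ ^ j * w μ (η' j) = 0 := by
    intro j
    rw [← hη j]
    simp only [hη']
    rw [per_int hvp]
    congr 1
    refine Finset.sum_congr rfl fun μ _ => ?_
    rw [per_int (hp μ)]
  have k5 : ∀ j, ξ' j < η' j := fun j => by simp only [hξ', hη']; linarith [hlt j]
  have k6 : ∀ j, η' j - ξ' j ≤ γ := fun j => by simp only [hξ', hη']; linarith [hle j]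
  obtain ⟨⟨x, y⟩, -, σ, hσ, hlim⟩ := (isCompact_Icc.prod isCompact_Icc).tendsto_subseq
    (x := fun j => (ξ' j, η' j)) (fun j => (⟨k1 j, k2 j⟩ : _ ∈ Icc 0 a ×ˢ Icc 0 (a + |γ|)))
  have lx : Tendsto (fun i => ξ' (σ i)) atTop (𝓝 x) := (continuous_fst.tendsto _).comp hlim
  have ly : Tendsto (fun i => η' (σ i)) atTop (𝓝 y) := (continuous_snd.tendsto _).comp hlim
  have hvc0 : Continuous v := continuous_iff_continuousAt.2 fun x => (hv1 x).continuousAt
  have hwc0 : ∀ μ, Continuous (w μ) := fun μ =>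
    continuous_iff_continuousAt.2 fun x => (h1 μ x).continuousAt
  -- limits
  have lim : ∀ {V : ℝ → ℝ} {W : ℝ → ℝ → ℝ}, Continuous V → (∀ μ, Continuous (W μ)) →
      ∀ {u : ℕ → ℝ} {x : ℝ}, Tendsto u atTop (𝓝 x) →
      Tendsto (fun i => V (u i) + ∑ μ ∈ S, r μ ^ (σ i) * W μ (u i)) atTop (𝓝 (V x)) := by
    intro V W hV hW u x hu
    have e : V x = V x + ∑ μ ∈ S, 0 * W μ x := by simp
    rw [e]
    refine ((hV.tendsto x).comp hu).add (tendsto_finset_sum _ fun μ hμ => ?_)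
    refine Tendsto.mul ?_ (((hW μ).tendsto x).comp hu)
    exact (tendsto_pow_atTop_nhds_zero_of_lt_one (hr0 μ hμ) (hr1 μ hμ)).comp hσ.tendsto_atTop
  have vx : v x = 0 := by
    have := lim hvc0 hwc0 lx
    simp only [k3] at this
    exact tendsto_nhds_unique this tendsto_const_nhds |>.symm ▸ rfl
  have vy : v y = 0 := by
    have := lim hvc0 hwc0 ly
    simp only [k4] at this
    exact tendsto_nhds_unique this tendsto_const_nhds |>.symm ▸ rfl
  have hxy : x ≤ y := le_of_tendsto_of_tendsto' lx ly fun i => (k5 _).le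
  have hyx : y - x ≤ γ := le_of_tendsto' (ly.sub lx) fun i => k6 _
  obtain ⟨x0, hx0⟩ := hv
  have hkc : Continuous fun x => -Q x := hQc.neg
  have hfin : ∀ p, v p = 0 → v1 p = 0 → False := fun p hp0 hp1 =>
    hx0 (ode_unique (k := fun x => -Q x) hv1 hv2 hkc hp0 hp1 x0)
  rcases hxy.eq_or_lt with h | h
  · -- equal
    have hz : ∀ j, ∃ ζ ∈ Ioo (ξ' j) (η' j), v1 ζ + ∑ μ ∈ S, r μ ^ j * w1 μ ζ = 0 := by
      intro j
      have hd : ∀ x, HasDerivAt (fun x => v x + ∑ μ ∈ S, r μ ^ j * w μ x)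
          (v1 x + ∑ μ ∈ S, r μ ^ j * w1 μ x) x := by
        intro x
        refine (hv1 x).add ?_
        have := HasDerivAt.fun_sum (u := S) (A := fun μ x => r μ ^ j * w μ x)
          (A' := fun μ => r μ ^ j * w1 μ x) (x := x) fun μ _ => (h1 μ x).const_mul _
        exact this
      obtain ⟨ζ, hζ, hζ0⟩ := exists_hasDerivAt_eq_zero (k5 j)
        (fun x _ => (hd x).continuousAt.continuousWithinAt) ((k3 j).trans (k4 j).symm)
        (fun x _ => hd x)
      exact ⟨ζ, hζ, hζ0⟩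
    choose ζ hζ hζ0 using hz
    have lz : Tendsto (fun i => ζ (σ i)) atTop (𝓝 x) :=
      tendsto_of_tendsto_of_tendsto_of_le_of_le lx (h ▸ ly) (fun i => (hζ _).1.le)
        (fun i => (hζ _).2.le)
    have := lim hvc hc1 lz
    simp only [hζ0] at this
    exact hfin x vx (tendsto_nhds_unique this tendsto_const_nhds)
  · have hg : κ * (y - x) < Real.pi :=
      lt_of_le_of_lt (mul_le_mul_of_nonneg_left hyx hκ.le) hγ
    have h0 : ∀ t ∈ Ioo x y, v t = 0 := gap_zero hv1 hv2 hκ hQ h hg vx vy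
    obtain ⟨t, ht⟩ := exists_between h
    have ht' : t ∈ Ioo x y := ht
    have h3 : v =ᶠ[𝓝 t] fun _ => 0 := by
      filter_upwards [Ioo_mem_nhds ht'.1 ht'.2] with s hs using h0 s hs
    have h4 : HasDerivAt v 0 t := (hasDerivAt_const t (0 : ℝ)).congr_of_eventuallyEq h3
    exact hfin t (h0 t ht') ((hv1 t).unique h4)

/-- The number of simple zeros of a sum of periodic solutions -/
theorem zeros_le {S : Finset ℝ} {w w1 : ℝ → ℝ → ℝ} {q : ℝ → ℝ} {a κ : ℝ} (ha : 0 < a)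
    (hκ : 0 < κ) (h1 : ∀ μ x, HasDerivAt (w μ) (w1 μ x) x)
    (h2 : ∀ μ x, HasDerivAt (w1 μ) ((μ - q x) * w μ x) x)
    (hp : ∀ μ x, w μ (x + a) = w μ x) (hq : Continuous q) {C : ℝ} (hC : ∀ x, q x ≤ C)
    (hQ : ∀ μ ∈ S, ∀ x, q x - μ < κ ^ 2) (s : Finset ℝ)
    (hs : ∀ z ∈ s, z ∈ Ico 0 a ∧ ∑ μ ∈ S, w μ z = 0 ∧ ∑ μ ∈ S, w1 μ z ≠ 0) :
    s.card * Real.pi ≤ a * κ := by
  classical
  rcases s.eq_empty_or_nonempty with hse | hse
  · subst hse; simp; positivity
  -- continuity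
  have hwc : ∀ μ, Continuous (w μ) := fun μ =>
    continuous_iff_continuousAt.2 fun x => (h1 μ x).continuousAt
  have hw1c : ∀ μ, Continuous (w1 μ) := fun μ =>
    continuous_iff_continuousAt.2 fun x => (h2 μ x).continuousAt
  set S0 := S.filter fun μ => ∃ x, w μ x ≠ 0 with hS0
  have hzero : ∀ μ, μ ∈ S → μ ∉ S0 → ∀ x, w μ x = 0 := by
    intro μ hμ hμ0 x
    by_contra hne
    exact hμ0 (Finset.mem_filter.2 ⟨hμ, x, hne⟩)
  have hzero1 : ∀ μ, μ ∈ S → μ ∉ S0 → ∀ x, w1 μ x = 0 := by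
    intro μ hμ hμ0 x
    have : w μ = fun _ => 0 := funext (hzero μ hμ hμ0)
    have h3 := h1 μ x
    rw [this] at h3
    exact h3.unique (hasDerivAt_const _ _)
  have hsum : ∀ x, ∑ μ ∈ S, w μ x = ∑ μ ∈ S0, w μ x := fun x =>
    (Finset.sum_subset (Finset.filter_subset _ _) fun μ hμ hμ0 => hzero μ hμ hμ0 x).symm
  have hsum1 : ∀ x, ∑ μ ∈ S, w1 μ x = ∑ μ ∈ S0, w1 μ x := fun x =>
    (Finset.sum_subset (Finset.filter_subset _ _) fun μ hμ hμ0 => hzero1 μ hμ hμ0 x).symm
  have hS0ne : S0.Nonempty := by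
    by_contra hcon
    rw [Finset.not_nonempty_iff_eq_empty] at hcon
    obtain ⟨z, hz⟩ := hse
    apply (hs z hz).2.2
    rw [hsum1, hcon]; simp
  set μ0 := S0.min' hS0ne with hμ0
  have hμ0S : μ0 ∈ S0 := S0.min'_mem hS0ne
  have hμ0le : ∀ μ ∈ S0, μ0 ≤ μ := fun μ hμ => S0.min'_le μ hμ
  obtain ⟨c, hc⟩ : ∃ c : ℝ, (∀ x, q x < c) ∧ ∀ μ ∈ S0, μ < c := by
    refine ⟨max C (S0.max' hS0ne) + 1, fun x => ?_, fun μ hμ => ?_⟩
    · have := le_max_left C (S0.max' hS0ne)
      linarith [hC x]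
    · have := le_max_right C (S0.max' hS0ne)
      linarith [S0.le_max' μ hμ]
  have hcμ0 : 0 < c - μ0 := by linarith [hc.2 μ0 hμ0S]
  set r : ℝ → ℝ := fun μ => (c - μ) / (c - μ0) with hr
  set G : ℕ → ℝ → ℝ := fun j x => ∑ μ ∈ S0, (c - μ) ^ j * w μ x with hG
  set G1 : ℕ → ℝ → ℝ := fun j x => ∑ μ ∈ S0, (c - μ) ^ j * w1 μ x with hG1
  set G2 : ℕ → ℝ → ℝ := fun j x => ∑ μ ∈ S0, (c - μ) ^ j * ((μ - q x) * w μ x) with hG2
  have g1 : ∀ j x, HasDerivAt (G j) (G1 j x) x := fun j x =>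
    HasDerivAt.fun_sum (u := S0) (A := fun μ x => (c - μ) ^ j * w μ x)
      (A' := fun μ => (c - μ) ^ j * w1 μ x) (x := x) fun μ _ => (h1 μ x).const_mul _
  have g2 : ∀ j x, HasDerivAt (G1 j) (G2 j x) x := fun j x =>
    HasDerivAt.fun_sum (u := S0) (A := fun μ x => (c - μ) ^ j * w1 μ x)
      (A' := fun μ => (c - μ) ^ j * ((μ - q x) * w μ x)) (x := x) fun μ _ => (h2 μ x).const_mul _
  have g3 : ∀ j x, G (j + 1) x = (c - q x) * G j x - G2 j x := by
    intro j x
    simp only [hG, hG2]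
    rw [Finset.mul_sum, ← Finset.sum_sub_distrib]
    refine Finset.sum_congr rfl fun μ _ => ?_
    ring
  have hGp : ∀ j x, G j (x + a) = G j x := fun j x =>
    Finset.sum_congr rfl fun μ _ => by rw [hp]
  -- separation of zeros
  have sep : ∀ γ, κ * γ < Real.pi → ∃ j : ℕ, ∀ ξ η, ξ < η → G j ξ = 0 → G j η = 0 → γ < η - ξ := by
    intro γ hγ
    obtain ⟨j, hj⟩ := near (S := S0.erase μ0) (w := w) (w1 := w1) (r := r) ha h1 hw1c hp
      (v := w μ0) (v1 := w1 μ0) (Q := fun x => q x - μ0) (h1 μ0)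
      (fun x => (h2 μ0 x).congr_deriv (by ring)) (hp μ0) (hq.sub continuous_const) (hw1c μ0)
      (Finset.mem_filter.1 hμ0S).2
      (fun μ hμ => div_nonneg (by linarith [hc.2 μ (Finset.mem_of_mem_erase hμ)]) hcμ0.le)
      (fun μ hμ => by
        rw [hr]; simp only
        rw [div_lt_one hcμ0]
        have a1 := hμ0le μ (Finset.mem_of_mem_erase hμ)
        have a2 := Finset.ne_of_mem_erase hμ
        have : μ0 < μ := lt_of_le_of_ne a1 (Ne.symm a2)
        linarith) hκ (hQ μ0 (Finset.mem_filter.1 hμ0S).1) hγ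
    refine ⟨j, fun ξ η hlt hξ hη => hj ξ η hlt ?_ ?_⟩
    all_goals
      have key : ∀ x, w μ0 x + ∑ μ ∈ S0.erase μ0, r μ ^ j * w μ x = G j x / (c - μ0) ^ j := by
        intro x
        rw [eq_div_iff (pow_pos hcμ0 j).ne']
        simp only [hG]
        rw [← Finset.add_sum_erase S0 _ hμ0S, add_mul, Finset.sum_mul]
        congr 1
        · ring
        · refine Finset.sum_congr rfl fun μ _ => ?_
          rw [hr]; simp only
          rw [div_pow]
          field_simp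
      rw [key]
    · rw [hξ]; simp
    · rw [hη]; simp
  -- simple zeros over M periods
  set n := s.card with hn
  have hn0 : 0 < n := Finset.card_pos.2 hse
  have alt : ∀ M : ℕ, 0 < M → Alt (G 0) (n * M) (-1) (M * a + 1) := by
    intro M hM
    set u : Finset ℝ := (s ×ˢ Finset.range M).image fun p => p.1 + p.2 * a with hu
    have hcard : u.card = n * M := by
      rw [hu, Finset.card_image_of_injOn, Finset.card_product, Finset.card_range]
      rintro ⟨z, k⟩ hz ⟨z', k'⟩ hz' he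
      simp only [Finset.coe_product, Finset.coe_range, mem_prod, Finset.mem_coe, mem_Iio] at hz hz'
      simp only at he
      have a1 := (hs z hz.1).1
      have a2 := (hs z' hz'.1).1
      have a3 : (k : ℝ) < k' + 1 := by
        by_contra hcon
        push Not at hcon
        have := mul_le_mul_of_nonneg_right hcon ha.le
        linarith [a1.1, a2.2]
      have a4 : (k' : ℝ) < k + 1 := by
        by_contra hcon
        push Not at hcon
        have := mul_le_mul_of_nonneg_right hcon ha.le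
        linarith [a2.1, a1.2]
      have a5 : k = k' := by
        have b1 : k < k' + 1 := by exact_mod_cast a3
        have b2 : k' < k + 1 := by exact_mod_cast a4
        omega
      subst a5
      have : z = z' := by linarith
      rw [this]
    have hune : u.Nonempty := by
      rw [← Finset.card_pos, hcard]; positivity
    rw [← hcard]
    refine alt_of_simple (g1 := G1 0) (g1 0) u _ ?_ hune
    intro z hz
    rw [hu, Finset.mem_image] at hz
    obtain ⟨⟨z', k⟩, hzk, rfl⟩ := hz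
    rw [Finset.mem_product, Finset.mem_range] at hzk
    obtain ⟨b1, b2, b3⟩ := hs z' hzk.1
    have hk : (k : ℝ) + 1 ≤ M := by exact_mod_cast hzk.2
    have hk' := mul_le_mul_of_nonneg_right hk ha.le
    have hk0 : (0 : ℝ) ≤ k * a := by positivity
    have p0 : ∀ x, G 0 x = ∑ μ ∈ S, w μ x := fun x => by
      rw [hsum]; simp [hG]
    have p1 : ∀ x, G1 0 x = ∑ μ ∈ S, w1 μ x := fun x => by
      rw [hsum1]; simp [hG1]
    have hper1 : ∀ μ x, w1 μ (x + a) = w1 μ x := by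
      intro μ x
      have d1 : HasDerivAt (fun x => w μ (x + a)) (w1 μ (x + a)) x :=
        (h1 μ (x + a)).comp_add_const x a
      have : (fun x => w μ (x + a)) = w μ := funext (hp μ)
      rw [this] at d1
      exact d1.unique (h1 μ x)
    have q0 : ∀ μ, w μ (z' + k * a) = w μ z' := fun μ => by
      have h5 : Function.Periodic (w μ) a := hp μ
      exact h5.nat_mul k z'
    have q1 : ∀ μ, w1 μ (z' + k * a) = w1 μ z' := fun μ => by
      have h5 : Function.Periodic (w1 μ) a := hper1 μ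
      exact h5.nat_mul k z'
    refine ⟨by simp only; linarith [b1.1], by simp only; linarith [b1.2], ?_, ?_⟩
    · rw [p0]; simp only [q0]; exact b2
    · rw [p1]; simp only [q1]; exact b3
  -- conclusion for γ
  have concl : ∀ γ, κ * γ < Real.pi → 0 < γ → n * γ ≤ a := by
    intro γ hγ hγ0
    obtain ⟨j, hj⟩ := sep γ hγ
    by_contra hcon
    push Not at hcon
    obtain ⟨M, hM⟩ := exists_nat_gt ((2 + (2 * j + 1) * γ) / (n * γ - a))
    rw [div_lt_iff₀ (by linarith)] at hM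
    have hM0 : 0 < M := by
      rcases Nat.eq_zero_or_pos M with h0 | h0
      · rw [h0] at hM
        have : (0 : ℝ) < 2 + (2 * j + 1) * γ := by positivity
        simp at hM
        linarith
      · exact h0
    have h3 := alt M hM0
    have hbig : 2 * j + 1 < n * M := by
      by_contra h4
      push Not at h4
      have h5 : ((n * M : ℕ) : ℝ) ≤ ((2 * j + 1 : ℕ) : ℝ) := by exact_mod_cast h4
      push_cast at h5
      have h6 := mul_le_mul_of_nonneg_right h5 hγ0.le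
      have h7 : 0 ≤ (M : ℝ) * a := by positivity
      nlinarith
    obtain ⟨m, hm⟩ : ∃ m, n * M = m + 1 + 2 * j := ⟨n * M - 1 - 2 * j, by omega⟩
    rw [hm] at h3
    have h4 := alt_iter (G := G) (G1 := G1) (G2 := G2) (q := fun x => c - q x) g1 g2
      (fun x => by linarith [hc.1 x]) g3 j (m + 1) h3
    have h5 := count_gap (g1 j) h4 hj
    have h6 : ((n * M : ℕ) : ℝ) = ((m + 1 + 2 * j : ℕ) : ℝ) := by rw [hm]
    push_cast at h6
    have h7 : (m : ℝ) = n * M - 1 - 2 * j := by linarith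
    rw [h7] at h5
    nlinarith
  -- let γ tend to π / κ
  by_contra hcon
  push Not at hcon
  have hn' : (0 : ℝ) < n := by exact_mod_cast hn0
  obtain ⟨γ, hγ1, hγ2⟩ := exists_between (show a / n < Real.pi / κ by
    rw [div_lt_div_iff₀ hn' hκ]; linarith)
  have h3 : κ * γ < Real.pi := by
    rw [lt_div_iff₀ hκ] at hγ2; linarith
  have h4 : 0 < γ := lt_trans (by positivity) hγ1
  have h5 := concl γ h3 h4
  rw [div_lt_iff₀ hn'] at hγ1
  linarith

end Pool.Agent.H900R3.Liou
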