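import Mathlib

open Set Filter Topology MeasureTheory
open scoped ContDiff Interval ENNReal NNReal

namespace Pool.Agent.H900R3.Liou

/-- If `R` is locally a Lipschitz graph over the line through `π`, and has at most `N` points on
each fibre of `π`, then its length is at most `K N b`. -/
theorem hausdorff_le {π : ℂ → ℝ} (hπ : Continuous π) {R : Set ℂ} (hR : MeasurableSet R) {b : ℝ}
    (hb : ∀ z ∈ R, π z ∈ Icc 0 b) {K : ℝ≥0}
    (hloc : ∀ p ∈ R, ∃ U : Set ℂ, IsOpen U ∧ p ∈ U ∧
      ∀ z ∈ R ∩ U, ∀ w ∈ R ∩ U, dist z w ≤ K * dist (π z) (π w)) {N : ℕ}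
    (hN : ∀ y : ℝ, ∀ s : Finset ℂ, (∀ z ∈ s, z ∈ R ∧ π z = y) → s.card ≤ N) :
    μH[1] R ≤ K * (N * ENNReal.ofReal b) := by
  classical
  rcases R.eq_empty_or_nonempty with hRe | hRe
  · rw [hRe]; simp
  have hU : ∀ p : ℂ, ∃ U : Set ℂ, p ∈ R → IsOpen U ∧ p ∈ U ∧
      ∀ z ∈ R ∩ U, ∀ w ∈ R ∩ U, dist z w ≤ K * dist (π z) (π w) := by
    intro p
    by_cases hp : p ∈ R
    · obtain ⟨U, h⟩ := hloc p hp
      exact ⟨U, fun _ => h⟩
    · exact ⟨∅, fun h => absurd h hp⟩
  choose U hU using hU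
  obtain ⟨t, htR, htc, hcov⟩ := TopologicalSpace.countable_cover_nhdsWithin
    (s := R) (f := U) (fun z hz => mem_nhdsWithin_of_mem_nhds ((hU z hz).1.mem_nhds (hU z hz).2.1))
  have htne : t.Nonempty := by
    obtain ⟨z, hz⟩ := hRe
    have := hcov hz
    simp only [mem_iUnion] at this
    obtain ⟨x, hx, _⟩ := this
    exact ⟨x, hx⟩
  obtain ⟨u, hu⟩ := htc.exists_eq_range htne
  have huR : ∀ n, u n ∈ R := fun n => htR (by rw [hu]; exact mem_range_self n)
  set V : ℕ → Set ℂ := fun n => U (u n) with hV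
  have hVm : ∀ n, MeasurableSet (V n) := fun n => (hU _ (huR n)).1.measurableSet
  set A : ℕ → Set ℂ := fun n => R ∩ disjointed V n with hA
  have hAm : ∀ n, MeasurableSet (A n) := fun n => hR.inter (MeasurableSet.disjointed hVm n)
  have hAV : ∀ n, A n ⊆ R ∩ V n := fun n => inter_subset_inter_right _ (disjointed_subset V n)
  have hAU : R ⊆ ⋃ n, A n := by
    intro z hz
    have h1 := hcov hz
    rw [hu] at h1
    simp only [mem_iUnion] at h1
    obtain ⟨x, ⟨n, rfl⟩, hx⟩ := h1
    have h2 : z ∈ ⋃ n, V n := mem_iUnion.2 ⟨n, hx⟩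
    rw [← iUnion_disjointed] at h2
    obtain ⟨m, hm⟩ := mem_iUnion.1 h2
    exact mem_iUnion.2 ⟨m, hz, hm⟩
  have hdist : ∀ n, ∀ z ∈ A n, ∀ w ∈ A n, dist z w ≤ K * dist (π z) (π w) := fun n z hz w hw =>
    (hU _ (huR n)).2.2 z (hAV n hz) w (hAV n hw)
  have hinj : ∀ n, InjOn π (A n) := by
    intro n z hz w hw h
    have := hdist n z hz w hw
    rw [h, dist_self, mul_zero] at this
    exact dist_le_zero.1 this
  have hmeas : ∀ n, μH[1] (A n) ≤ K * volume (π '' A n) := by
    intro n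
    have h1 : LipschitzOnWith K (Function.invFunOn π (A n)) (π '' A n) := by
      apply LipschitzOnWith.of_dist_le_mul
      rintro _ ⟨z, hz, rfl⟩ _ ⟨w, hw, rfl⟩
      rw [(hinj n).leftInvOn_invFunOn hz, (hinj n).leftInvOn_invFunOn hw]
      exact hdist n z hz w hw
    have h2 := h1.hausdorffMeasure_image_le (d := 1) zero_le_one
    rw [(hinj n).invFunOn_image subset_rfl, hausdorffMeasure_real] at h2
    simpa using h2
  have himg : ∀ n, MeasurableSet (π '' A n) := fun n =>
    (hAm n).image_of_continuousOn_injOn hπ.continuousOn (hinj n)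
  have himgI : ∀ n, π '' A n ⊆ Icc 0 b := by
    rintro n _ ⟨z, hz, rfl⟩
    exact hb z hz.1
  have hpt : ∀ y, ∑' n, (π '' A n).indicator (fun _ => (1 : ℝ≥0∞)) y ≤ N := by
    intro y
    rw [ENNReal.tsum_eq_iSup_sum]
    refine iSup_le fun s => ?_
    have h1 : ∑ n ∈ s, (π '' A n).indicator (fun _ => (1 : ℝ≥0∞)) y =
        ((s.filter fun n => y ∈ π '' A n).card : ℝ≥0∞) := by
      rw [Finset.card_filter]
      push_cast
      refine Finset.sum_congr rfl fun n _ => ?_
      by_cases hn : y ∈ π '' A n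
      · rw [indicator_of_mem hn, if_pos hn]
      · rw [indicator_of_notMem hn, if_neg hn]
    rw [h1]
    have h2 : ∀ n, ∃ z, y ∈ π '' A n → z ∈ A n ∧ π z = y := by
      intro n
      by_cases hn : y ∈ π '' A n
      · obtain ⟨z, hz, hzy⟩ := hn
        exact ⟨z, fun _ => ⟨hz, hzy⟩⟩
      · exact ⟨0, fun h => absurd h hn⟩
    choose p hp using h2
    have h3 : ((s.filter fun n => y ∈ π '' A n).image p).card =
        (s.filter fun n => y ∈ π '' A n).card := by
      apply Finset.card_image_of_injOn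
      intro n hn m hm hnm
      simp only [Finset.coe_filter, mem_setOf_eq] at hn hm
      by_contra hne
      have d1 := (disjoint_disjointed V) hne
      have e1 := (hp n hn.2).1.2
      have e2 := (hp m hm.2).1.2
      rw [← hnm] at e2
      exact (disjoint_left.1 d1 e1) e2
    have h4 := hN y ((s.filter fun n => y ∈ π '' A n).image p) (by
      intro z hz
      rw [Finset.mem_image] at hz
      obtain ⟨n, hn, rfl⟩ := hz
      have := hp n (Finset.mem_filter.1 hn).2
      exact ⟨this.1.1, this.2⟩)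
    rw [h3] at h4
    exact_mod_cast h4
  calc μH[1] R ≤ μH[1] (⋃ n, A n) := measure_mono hAU
    _ ≤ ∑' n, μH[1] (A n) := measure_iUnion_le _
    _ ≤ ∑' n, K * volume (π '' A n) := ENNReal.tsum_le_tsum hmeas
    _ = K * ∑' n, volume (π '' A n) := ENNReal.tsum_mul_left
    _ = K * ∑' n, ∫⁻ y in Icc 0 b, (π '' A n).indicator (fun _ => (1 : ℝ≥0∞)) y := by
        congr 2; funext n
        rw [lintegral_indicator (himg n), Measure.restrict_restrict (himg n),
          inter_eq_self_of_subset_left (himgI n)]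
        simp
    _ = K * ∫⁻ y in Icc 0 b, ∑' n, (π '' A n).indicator (fun _ => (1 : ℝ≥0∞)) y := by
        rw [lintegral_tsum]
        intro n
        exact (measurable_const.indicator (himg n)).aemeasurable
    _ ≤ K * ∫⁻ _ in Icc 0 b, (N : ℝ≥0∞) := by
        gcongr with y
        exact hpt y
    _ = K * (N * ENNReal.ofReal b) := by
        rw [lintegral_const]; simp

end Pool.Agent.H900R3.Liou
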