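import Pool.Agent.H900R3.Liou.Sing
import Pool.Agent.H900R3.Liou.Count
import Pool.Agent.H900R3.Liou.Meas

open Set Filter Topology MeasureTheory
open scoped ContDiff Interval ENNReal NNReal

namespace Pool.Agent.H900R3.Liou
open Pool.Agent.H900R3.Dir

theorem local_gen {φ : ℂ → ℝ} (h : ContDiff ℝ ∞ φ) (p : ℂ) {c : ℝ} (hc : 0 < c) :
    ∃ U : Set ℂ, IsOpen U ∧ p ∈ U ∧ ∀ z ∈ U, ∀ w ∈ U, φ z = 0 → φ w = 0 →
      |dX φ p * (z.re - w.re) + dY φ p * (z.im - w.im)| ≤ c * ‖z - w‖ := by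
  have h1 : HasStrictFDerivAt φ (fderiv ℝ φ p) p := h.contDiffAt.hasStrictFDerivAt (by simp)
  have h2 := h1.isLittleO.def hc
  rw [nhds_prod_eq] at h2
  obtain ⟨t, ht, hts⟩ := (Filter.eventually_prod_self_iff
    (r := fun z w => ‖φ z - φ w - (fderiv ℝ φ p) (z - w)‖ ≤ c * ‖z - w‖)).1 h2
  obtain ⟨U, hUt, hUo, hpU⟩ := mem_nhds_iff.1 ht
  refine ⟨U, hUo, hpU, fun z hz w hw hz0 hw0 => ?_⟩
  have h3 := hts z (hUt hz) w (hUt hw)
  rw [hz0, hw0, fd_eq, sub_zero, zero_sub, norm_neg, Real.norm_eq_abs, Complex.sub_re,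
    Complex.sub_im] at h3
  exact h3

theorem norm_bd {v : ℂ} : ‖v‖ ≤ |v.re| + |v.im| := Complex.norm_le_abs_re_add_abs_im v

theorem two_bd {x y : ℝ} (h : |x| ≤ 3 / 2 * |y|) : Real.sqrt (x ^ 2 + y ^ 2) ≤ 2 * |y| := by
  apply Real.sqrt_le_iff.2
  constructor
  · positivity
  · have h1 : x ^ 2 ≤ (3 / 2 * |y|) ^ 2 := by
      rw [← sq_abs x]
      exact pow_le_pow_left₀ (abs_nonneg _) h 2
    have h2 : |y| ^ 2 = y ^ 2 := sq_abs y
    nlinarith [sq_nonneg y]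

theorem norm_sqrt (v : ℂ) : ‖v‖ = Real.sqrt (v.re ^ 2 + v.im ^ 2) := by
  rw [Complex.norm_def, Complex.normSq_apply]; congr 1; ring

theorem local_x {φ : ℂ → ℝ} (h : ContDiff ℝ ∞ φ) {p : ℂ} (h0 : dX φ p ≠ 0)
    (h1 : |dY φ p| ≤ |dX φ p|) : ∃ U : Set ℂ, IsOpen U ∧ p ∈ U ∧ ∀ z ∈ U, ∀ w ∈ U, φ z = 0 →
      φ w = 0 → dist z w ≤ 2 * dist z.im w.im := by
  have hα : 0 < |dX φ p| := abs_pos.2 h0
  obtain ⟨U, hU, hp, hU'⟩ := local_gen h p (c := |dX φ p| / 5) (by positivity)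
  refine ⟨U, hU, hp, fun z hz w hw hz0 hw0 => ?_⟩
  have h2 := hU' z hz w hw hz0 hw0
  set α := dX φ p
  set β := dY φ p
  set x := z.re - w.re with hx
  set y := z.im - w.im with hy
  have h3 : ‖z - w‖ ≤ |x| + |y| := norm_bd
  have h4 : |α * x| ≤ |α * x + β * y| + |β * y| := by
    have := abs_sub (α * x + β * y) (β * y)
    simpa using this
  rw [abs_mul, abs_mul] at h4
  have h5 : |β| * |y| ≤ |α| * |y| := mul_le_mul_of_nonneg_right h1 (abs_nonneg _)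
  have h6 : |α| / 5 * ‖z - w‖ ≤ |α| / 5 * (|x| + |y|) :=
    mul_le_mul_of_nonneg_left h3 (by positivity)
  have h7 : |α| * |x| ≤ |α| * (3 / 2 * |y|) := by linarith
  have h8 : |x| ≤ 3 / 2 * |y| := le_of_mul_le_mul_left h7 hα
  rw [dist_eq_norm, norm_sqrt, Real.dist_eq]
  exact two_bd h8

theorem local_y {φ : ℂ → ℝ} (h : ContDiff ℝ ∞ φ) {p : ℂ} (h0 : dY φ p ≠ 0)
    (h1 : |dX φ p| ≤ |dY φ p|) : ∃ U : Set ℂ, IsOpen U ∧ p ∈ U ∧ ∀ z ∈ U, ∀ w ∈ U, φ z = 0 →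
      φ w = 0 → dist z w ≤ 2 * dist z.re w.re := by
  have hα : 0 < |dY φ p| := abs_pos.2 h0
  obtain ⟨U, hU, hp, hU'⟩ := local_gen h p (c := |dY φ p| / 5) (by positivity)
  refine ⟨U, hU, hp, fun z hz w hw hz0 hw0 => ?_⟩
  have h2 := hU' z hz w hw hz0 hw0
  set α := dX φ p
  set β := dY φ p
  set x := z.re - w.re with hx
  set y := z.im - w.im with hy
  have h3 : ‖z - w‖ ≤ |x| + |y| := norm_bd
  have h4 : |β * y| ≤ |α * x + β * y| + |α * x| := by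
    have := abs_sub (α * x + β * y) (α * x)
    simpa using this
  rw [abs_mul, abs_mul] at h4
  have h5 : |α| * |x| ≤ |β| * |x| := mul_le_mul_of_nonneg_right h1 (abs_nonneg _)
  have h6 : |β| / 5 * ‖z - w‖ ≤ |β| / 5 * (|x| + |y|) :=
    mul_le_mul_of_nonneg_left h3 (by positivity)
  have h7 : |β| * |y| ≤ |β| * (3 / 2 * |x|) := by linarith
  have h8 : |y| ≤ 3 / 2 * |x| := le_of_mul_le_mul_left h7 hα
  rw [dist_eq_norm, norm_sqrt, Real.dist_eq, Complex.sub_re, Complex.sub_im, add_comm]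
  exact two_bd h8

variable (D : Data)

theorem mu_lower {g : ℂ → ℝ} {μ : ℝ} (hs : Sol D g) (h : ∀ z, L D g z = μ * g z) (hne : g ≠ 0) :
    -(D.lam * D.H) ≤ μ := by
  by_contra hcon
  push Not at hcon
  apply hne
  funext z
  have := per_zero (v := fun y => g ⟨z.re, y⟩) (v1 := fun y => dY g ⟨z.re, y⟩)
    (k := fun y => -μ - D.lam * D.h y) D.hb (fun y => hdY hs.smooth z.re y) (fun y => by
      have := hdY (dY_smooth hs.smooth) z.re y
      rwa [sepY D hs h] at this) (fun y => by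
      have := hs.perY ⟨z.re, y⟩
      have e : (⟨z.re, y⟩ : ℂ) + D.b * Complex.I = ⟨z.re, y + D.b⟩ := by
        apply Complex.ext <;> simp
      rwa [e] at this) (fun y => by
      have := mul_le_mul_of_nonneg_left (D.hH y) D.hlam.le
      linarith) z.im
  exact this

theorem mu_upper {g : ℂ → ℝ} {μ : ℝ} (hs : Sol D g) (h : ∀ z, L D g z = μ * g z) (hne : g ≠ 0) :
    μ ≤ D.lam * D.F := by
  by_contra hcon
  push Not at hcon
  apply hne
  funext z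
  have := per_zero (v := fun x => g ⟨x, z.im⟩) (v1 := fun x => dX g ⟨x, z.im⟩)
    (k := fun x => μ - D.lam * D.f x) D.ha (fun x => hdX hs.smooth x z.im) (fun x => by
      have := hdX (dX_smooth hs.smooth) x z.im
      rwa [sepX D h] at this) (fun x => by
      have := hs.perX ⟨x, z.im⟩
      have e : (⟨x, z.im⟩ : ℂ) + D.a = ⟨x + D.a, z.im⟩ := by
        apply Complex.ext <;> simp
      rwa [e] at this) (fun x => by
      have := mul_le_mul_of_nonneg_left (D.hF x) D.hlam.le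
      linarith) z.re
  exact this

theorem decomp' {φ : ℂ → ℝ} (h : Sol D φ) : ∃ (S : Finset ℝ) (g : ℝ → ℂ → ℝ),
    (∀ μ, Sol D (g μ) ∧ ∀ z, L D (g μ) z = μ * g μ z) ∧ (∀ z, φ z = ∑ μ ∈ S, g μ z) ∧
    ∀ μ ∈ S, -(D.lam * D.H) ≤ μ ∧ μ ≤ D.lam * D.F := by
  classical
  obtain ⟨S, g, h1, h2⟩ := decomp D h
  refine ⟨S.filter fun μ => g μ ≠ 0, g, h1, fun z => ?_, fun μ hμ => ?_⟩
  · rw [h2 z]
    symm
    apply Finset.sum_subset (Finset.filter_subset _ _)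
    intro μ hμ hμ0
    by_contra hne
    apply hμ0
    refine Finset.mem_filter.2 ⟨hμ, fun h0 => hne (by rw [h0]; rfl)⟩
  · have h3 := (Finset.mem_filter.1 hμ).2
    exact ⟨mu_lower D (h1 μ).1 (h1 μ).2 h3, mu_upper D (h1 μ).1 (h1 μ).2 h3⟩

theorem pos_sqrt {κ X : ℝ} (h : Real.sqrt X < κ) : X < κ ^ 2 := by
  have h0 : 0 ≤ Real.sqrt X := Real.sqrt_nonneg _
  exact (Real.sqrt_lt' (by linarith)).1 h

theorem card_of_forall {n : ℕ} {a X : ℝ} (ha : 0 < a)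
    (h : ∀ κ, 0 < κ → X < κ ^ 2 → n * Real.pi ≤ a * κ) : (n : ℝ) ≤ a * Real.sqrt X / Real.pi := by
  rw [le_div_iff₀ Real.pi_pos]
  by_contra hcon
  push Not at hcon
  obtain ⟨κ, h1, h2⟩ := exists_between (show Real.sqrt X < n * Real.pi / a by
    rw [lt_div_iff₀ ha]; linarith)
  have h3 := h κ (lt_of_le_of_lt (Real.sqrt_nonneg _) h1) (pos_sqrt h1)
  rw [lt_div_iff₀ ha] at h2
  linarith

/-- horizontal circles -/
theorem countX {φ : ℂ → ℝ} (h : Sol D φ) (y : ℝ) (s : Finset ℝ)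
    (hs : ∀ x ∈ s, x ∈ Ico 0 D.a ∧ φ ⟨x, y⟩ = 0 ∧ dX φ ⟨x, y⟩ ≠ 0) :
    (s.card : ℝ) ≤ D.a * Real.sqrt (D.lam * (D.F + D.H)) / Real.pi := by
  obtain ⟨S, g, h1, h2, h3⟩ := decomp' D h
  have hd : ∀ x, dX φ ⟨x, y⟩ = ∑ μ ∈ S, dX (g μ) ⟨x, y⟩ := by
    intro x
    have d1 := HasDerivAt.fun_sum (u := S) (A := fun μ x => g μ ⟨x, y⟩)
      (A' := fun μ => dX (g μ) ⟨x, y⟩) (x := x) fun μ _ => hdX (h1 μ).1.smooth x y
    have e : (fun x => ∑ μ ∈ S, g μ ⟨x, y⟩) = fun x => φ ⟨x, y⟩ := funext fun x => (h2 _).symm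
    rw [e] at d1
    exact (hdX h.smooth x y).unique d1
  apply card_of_forall D.ha
  intro κ hκ hκ2
  refine zeros_le (S := S) (w := fun μ x => g μ ⟨x, y⟩) (w1 := fun μ x => dX (g μ) ⟨x, y⟩)
    (q := fun x => D.lam * D.f x) (C := D.lam * D.F) D.ha hκ
    (fun μ x => hdX (h1 μ).1.smooth x y) (fun μ x => ?_) (fun μ x => ?_)
    (continuous_const.mul D.hf.continuous)
    (fun x => mul_le_mul_of_nonneg_left (D.hF x) D.hlam.le) (fun μ hμ x => ?_) s (fun z hz => ?_)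
  · have := hdX (dX_smooth (h1 μ).1.smooth) x y
    rwa [sepX D (h1 μ).2] at this
  · have := (h1 μ).1.perX ⟨x, y⟩
    have e : (⟨x, y⟩ : ℂ) + D.a = ⟨x + D.a, y⟩ := by
      apply Complex.ext <;> simp
    rwa [e] at this
  · have a1 := mul_le_mul_of_nonneg_left (D.hF x) D.hlam.le
    have a2 := (h3 μ hμ).1
    linarith
  · obtain ⟨b1, b2, b3⟩ := hs z hz
    rw [h2] at b2
    rw [hd] at b3
    exact ⟨b1, b2, b3⟩

/-- vertical circles -/
theorem countY {φ : ℂ → ℝ} (h : Sol D φ) (x : ℝ) (s : Finset ℝ)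
    (hs : ∀ y ∈ s, y ∈ Ico 0 D.b ∧ φ ⟨x, y⟩ = 0 ∧ dY φ ⟨x, y⟩ ≠ 0) :
    (s.card : ℝ) ≤ D.b * Real.sqrt (D.lam * (D.F + D.H)) / Real.pi := by
  classical
  obtain ⟨S, g, h1, h2, h3⟩ := decomp' D h
  have hd : ∀ y, dY φ ⟨x, y⟩ = ∑ μ ∈ S, dY (g μ) ⟨x, y⟩ := by
    intro y
    have d1 := HasDerivAt.fun_sum (u := S) (A := fun μ y => g μ ⟨x, y⟩)
      (A' := fun μ => dY (g μ) ⟨x, y⟩) (x := y) fun μ _ => hdY (h1 μ).1.smooth x y
    have e : (fun y => ∑ μ ∈ S, g μ ⟨x, y⟩) = fun y => φ ⟨x, y⟩ := funext fun y => (h2 _).symm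
    rw [e] at d1
    exact (hdY h.smooth x y).unique d1
  apply card_of_forall D.hb
  intro κ hκ hκ2
  have hneg : Function.Injective (fun μ : ℝ => -μ) := neg_injective
  refine zeros_le (S := S.image fun μ => -μ) (w := fun μ y => g (-μ) ⟨x, y⟩)
    (w1 := fun μ y => dY (g (-μ)) ⟨x, y⟩)
    (q := fun y => D.lam * D.h y) (C := D.lam * D.H) D.hb hκ
    (fun μ y => hdY (h1 (-μ)).1.smooth x y) (fun μ y => ?_) (fun μ y => ?_)
    (continuous_const.mul D.hh.continuous)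
    (fun y => mul_le_mul_of_nonneg_left (D.hH y) D.hlam.le) (fun μ hμ y => ?_) s (fun z hz => ?_)
  · have := hdY (dY_smooth (h1 (-μ)).1.smooth) x y
    rw [sepY D (h1 (-μ)).1 (h1 (-μ)).2] at this
    exact this.congr_deriv (by ring)
  · have := (h1 (-μ)).1.perY ⟨x, y⟩
    have e : (⟨x, y⟩ : ℂ) + D.b * Complex.I = ⟨x, y + D.b⟩ := by
      apply Complex.ext <;> simp
    rwa [e] at this
  · rw [Finset.mem_image] at hμ
    obtain ⟨ν, hν, rfl⟩ := hμ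
    have a1 := mul_le_mul_of_nonneg_left (D.hH y) D.hlam.le
    have a2 := (h3 ν hν).2
    linarith
  · obtain ⟨b1, b2, b3⟩ := hs z hz
    rw [h2] at b2
    rw [hd] at b3
    refine ⟨b1, ?_, ?_⟩
    · rw [Finset.sum_image fun _ _ _ _ h => hneg h]
      simpa using b2
    · rw [Finset.sum_image fun _ _ _ _ h => hneg h]
      simpa using b3

/-- the part of the nodal set with mostly horizontal gradient -/
theorem partX {φ : ℂ → ℝ} (h : Sol D φ) :
    μH[1] {z : ℂ | (z.re ∈ Ico 0 D.a ∧ z.im ∈ Ico 0 D.b ∧ φ z = 0) ∧ dX φ z ≠ 0 ∧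
      |dY φ z| ≤ |dX φ z|} ≤
      ENNReal.ofReal (2 * (D.a * Real.sqrt (D.lam * (D.F + D.H)) / Real.pi * D.b)) := by
  classical
  set X := D.a * Real.sqrt (D.lam * (D.F + D.H)) / Real.pi with hX
  have hX0 : 0 ≤ X := by
    have := D.ha
    positivity
  have hφ := h.smooth.continuous
  have hx := (dX_smooth h.smooth).continuous
  have hy := (dY_smooth h.smooth).continuous
  have hm := hausdorff_le (π := Complex.im) Complex.continuous_im
    (R := {z : ℂ | (z.re ∈ Ico 0 D.a ∧ z.im ∈ Ico 0 D.b ∧ φ z = 0) ∧ dX φ z ≠ 0 ∧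
      |dY φ z| ≤ |dX φ z|}) ?_ (b := D.b) (fun z hz => Ico_subset_Icc_self hz.1.2.1) (K := 2)
    (fun p hp => ?_) (N := ⌊X⌋₊) (fun y s hs => ?_)
  · refine hm.trans ?_
    have e1 : ((2 : ℝ≥0) : ℝ≥0∞) = ENNReal.ofReal 2 := by simp
    have e2 : ((⌊X⌋₊ : ℕ) : ℝ≥0∞) = ENNReal.ofReal (⌊X⌋₊ : ℝ) := by simp
    rw [e1, e2, ← ENNReal.ofReal_mul (by positivity), ← ENNReal.ofReal_mul (by norm_num)]
    apply ENNReal.ofReal_le_ofReal
    have := Nat.floor_le hX0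
    have := mul_le_mul_of_nonneg_right this D.hb.le
    linarith
  · have m1 : MeasurableSet {z : ℂ | z.re ∈ Ico 0 D.a} := Complex.measurable_re measurableSet_Ico
    have m2 : MeasurableSet {z : ℂ | z.im ∈ Ico 0 D.b} := Complex.measurable_im measurableSet_Ico
    have m3 : MeasurableSet {z : ℂ | φ z = 0} := (isClosed_singleton.preimage hφ).measurableSet
    have m4 : MeasurableSet {z : ℂ | dX φ z ≠ 0} :=
      (isClosed_singleton.preimage hx).measurableSet.compl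
    have m5 : MeasurableSet {z : ℂ | |dY φ z| ≤ |dX φ z|} :=
      (isClosed_le hy.abs hx.abs).measurableSet
    exact (m1.inter (m2.inter m3)).inter (m4.inter m5)
  · obtain ⟨U, hU, hpU, hU'⟩ := local_x h.smooth hp.2.1 hp.2.2
    exact ⟨U, hU, hpU, fun z hz w hw => hU' z hz.2 w hw.2 hz.1.1.2.2 hw.1.1.2.2⟩
  · apply Nat.le_floor
    have hinj : InjOn Complex.re (s : Set ℂ) := by
      intro z hz w hw hzw
      apply Complex.ext hzw
      rw [(hs z hz).2, (hs w hw).2]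
    rw [← Finset.card_image_of_injOn hinj]
    apply countX D h y
    intro x hx
    rw [Finset.mem_image] at hx
    obtain ⟨z, hz, rfl⟩ := hx
    obtain ⟨c1, c2⟩ := hs z hz
    have e : (⟨z.re, y⟩ : ℂ) = z := by rw [← c2]
    rw [e]
    exact ⟨c1.1.1, c1.1.2.2, c1.2.1⟩

/-- the part of the nodal set with mostly vertical gradient -/
theorem partY {φ : ℂ → ℝ} (h : Sol D φ) :
    μH[1] {z : ℂ | (z.re ∈ Ico 0 D.a ∧ z.im ∈ Ico 0 D.b ∧ φ z = 0) ∧ dY φ z ≠ 0 ∧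
      |dX φ z| ≤ |dY φ z|} ≤
      ENNReal.ofReal (2 * (D.b * Real.sqrt (D.lam * (D.F + D.H)) / Real.pi * D.a)) := by
  classical
  set X := D.b * Real.sqrt (D.lam * (D.F + D.H)) / Real.pi with hX
  have hX0 : 0 ≤ X := by
    have := D.hb
    positivity
  have hφ := h.smooth.continuous
  have hx := (dX_smooth h.smooth).continuous
  have hy := (dY_smooth h.smooth).continuous
  have hm := hausdorff_le (π := Complex.re) Complex.continuous_re
    (R := {z : ℂ | (z.re ∈ Ico 0 D.a ∧ z.im ∈ Ico 0 D.b ∧ φ z = 0) ∧ dY φ z ≠ 0 ∧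
      |dX φ z| ≤ |dY φ z|}) ?_ (b := D.a) (fun z hz => Ico_subset_Icc_self hz.1.1) (K := 2)
    (fun p hp => ?_) (N := ⌊X⌋₊) (fun y s hs => ?_)
  · refine hm.trans ?_
    have e1 : ((2 : ℝ≥0) : ℝ≥0∞) = ENNReal.ofReal 2 := by simp
    have e2 : ((⌊X⌋₊ : ℕ) : ℝ≥0∞) = ENNReal.ofReal (⌊X⌋₊ : ℝ) := by simp
    rw [e1, e2, ← ENNReal.ofReal_mul (by positivity), ← ENNReal.ofReal_mul (by norm_num)]
    apply ENNReal.ofReal_le_ofReal
    have := Nat.floor_le hX0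
    have := mul_le_mul_of_nonneg_right this D.ha.le
    linarith
  · have m1 : MeasurableSet {z : ℂ | z.re ∈ Ico 0 D.a} := Complex.measurable_re measurableSet_Ico
    have m2 : MeasurableSet {z : ℂ | z.im ∈ Ico 0 D.b} := Complex.measurable_im measurableSet_Ico
    have m3 : MeasurableSet {z : ℂ | φ z = 0} := (isClosed_singleton.preimage hφ).measurableSet
    have m4 : MeasurableSet {z : ℂ | dY φ z ≠ 0} :=
      (isClosed_singleton.preimage hy).measurableSet.compl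
    have m5 : MeasurableSet {z : ℂ | |dX φ z| ≤ |dY φ z|} :=
      (isClosed_le hx.abs hy.abs).measurableSet
    exact (m1.inter (m2.inter m3)).inter (m4.inter m5)
  · obtain ⟨U, hU, hpU, hU'⟩ := local_y h.smooth hp.2.1 hp.2.2
    exact ⟨U, hU, hpU, fun z hz w hw => hU' z hz.2 w hw.2 hz.1.1.2.2 hw.1.1.2.2⟩
  · apply Nat.le_floor
    have hinj : InjOn Complex.im (s : Set ℂ) := by
      intro z hz w hw hzw
      refine Complex.ext ?_ hzw
      rw [(hs z hz).2, (hs w hw).2]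
    rw [← Finset.card_image_of_injOn hinj]
    apply countY D h y
    intro x hx
    rw [Finset.mem_image] at hx
    obtain ⟨z, hz, rfl⟩ := hx
    obtain ⟨c1, c2⟩ := hs z hz
    have e : (⟨y, z.im⟩ : ℂ) = z := by rw [← c2]
    rw [e]
    exact ⟨c1.1.2.1, c1.1.2.2, c1.2.1⟩

/-- Length of the nodal set -/
theorem nodal_length {φ : ℂ → ℝ} (h : Sol D φ) (hne : φ ≠ 0) :
    μH[1] {z : ℂ | z.re ∈ Ico 0 D.a ∧ z.im ∈ Ico 0 D.b ∧ φ z = 0} ≤
      ENNReal.ofReal (4 / Real.pi * (D.a * D.b) * Real.sqrt (D.lam * (D.F + D.H))) := by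
  have hsub : {z : ℂ | z.re ∈ Ico 0 D.a ∧ z.im ∈ Ico 0 D.b ∧ φ z = 0} ⊆
      ({z : ℂ | (z.re ∈ Ico 0 D.a ∧ z.im ∈ Ico 0 D.b ∧ φ z = 0) ∧ dX φ z ≠ 0 ∧
        |dY φ z| ≤ |dX φ z|} ∪
      {z : ℂ | (z.re ∈ Ico 0 D.a ∧ z.im ∈ Ico 0 D.b ∧ φ z = 0) ∧ dY φ z ≠ 0 ∧
        |dX φ z| ≤ |dY φ z|}) ∪ {z : ℂ | φ z = 0 ∧ dX φ z = 0 ∧ dY φ z = 0} := by
    intro z hz
    by_cases h1 : |dY φ z| ≤ |dX φ z|
    · by_cases h2 : dX φ z = 0
      · right
        rw [h2, abs_zero] at h1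
        exact ⟨hz.2.2, h2, abs_eq_zero.1 (le_antisymm h1 (abs_nonneg _))⟩
      · left; left; exact ⟨hz, h2, h1⟩
    · push Not at h1
      left; right
      refine ⟨hz, fun h0 => ?_, h1.le⟩
      rw [h0, abs_zero] at h1
      exact absurd h1 (not_lt.2 (abs_nonneg _))
  refine (measure_mono hsub).trans ((measure_union_le _ _).trans ?_)
  have h0 : μH[1] {z : ℂ | φ z = 0 ∧ dX φ z = 0 ∧ dY φ z = 0} = 0 := by
    have := Measure.nullSingletonClass_hausdorff ℂ one_pos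
    exact (sing_countable D h hne).measure_zero _
  rw [h0, add_zero]
  refine (measure_union_le _ _).trans ((add_le_add (partX D h) (partY D h)).trans ?_)
  have := D.ha
  have := D.hb
  rw [← ENNReal.ofReal_add (by positivity) (by positivity)]
  apply ENNReal.ofReal_le_ofReal
  apply le_of_eq
  ring

end Pool.Agent.H900R3.Liou
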