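import Mathlib

open Set Filter Topology MeasureTheory
open scoped ContDiff Interval

namespace Pool.Agent.H900R3.Liou

theorem snd_max {g g1 g2 : ℝ → ℝ} (h1 : ∀ x, HasDerivAt g (g1 x) x)
    (h2 : ∀ x, HasDerivAt g1 (g2 x) x) {x : ℝ} (hm : IsLocalMax g x) : g2 x ≤ 0 := by
  by_contra hpos
  push Not at hpos
  have e1 : deriv g = g1 := funext fun t => (h1 t).deriv
  have e2 : deriv g1 = g2 := funext fun t => (h2 t).deriv
  have hmin : IsLocalMin g x := by
    apply isLocalMin_of_deriv_deriv_pos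
    · rw [e1, e2]; exact hpos
    · exact hm.deriv_eq_zero
    · exact (h1 x).continuousAt
  have hev : ∀ᶠ y in 𝓝 x, g y = g x := by
    filter_upwards [hm, hmin] with y hy hy'
    exact le_antisymm hy hy'
  have hev1 : ∀ᶠ y in 𝓝 x, g1 y = 0 := by
    have : ∀ᶠ y in 𝓝 x, g =ᶠ[𝓝 y] fun _ => g x := hev.eventually_nhds
    filter_upwards [this] with y hy
    have h3 : HasDerivAt g 0 y := (hasDerivAt_const y (g x)).congr_of_eventuallyEq hy
    exact (h1 y).unique h3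
  have h4 : HasDerivAt g1 0 x := (hasDerivAt_const x (0 : ℝ)).congr_of_eventuallyEq hev1
  have := (h2 x).unique h4
  linarith

/-- peak lemma -/
theorem peak_pos {g g1 g2 q : ℝ → ℝ} (h1 : ∀ x, HasDerivAt g (g1 x) x)
    (h2 : ∀ x, HasDerivAt g1 (g2 x) x) (hq : ∀ x, 0 < q x) {z z' t : ℝ} (hz : g z = 0)
    (hz' : g z' = 0) (ht : t ∈ Ioo z z') (hg : 0 < g t) :
    ∃ ξ ∈ Ioo z z', 0 < q ξ * g ξ - g2 ξ := by
  have hc : ContinuousOn g (Icc z z') := fun x _ => (h1 x).continuousAt.continuousWithinAt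
  obtain ⟨ξ, hξ, hmax⟩ := isCompact_Icc.exists_isMaxOn
    (⟨t, Ioo_subset_Icc_self ht⟩ : (Icc z z').Nonempty) hc
  have h3 : g t ≤ g ξ := hmax (Ioo_subset_Icc_self ht)
  have h4 : 0 < g ξ := by linarith
  have h5 : ξ ≠ z := by rintro rfl; linarith
  have h6 : ξ ≠ z' := by rintro rfl; linarith
  have h7 : ξ ∈ Ioo z z' := ⟨lt_of_le_of_ne hξ.1 (Ne.symm h5), lt_of_le_of_ne hξ.2 h6⟩
  have h8 : IsLocalMax g ξ := hmax.isLocalMax (Icc_mem_nhds h7.1 h7.2)
  have h9 := snd_max h1 h2 h8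
  refine ⟨ξ, h7, ?_⟩
  have := mul_pos (hq ξ) h4
  linarith

theorem peak {g g1 g2 q : ℝ → ℝ} (h1 : ∀ x, HasDerivAt g (g1 x) x)
    (h2 : ∀ x, HasDerivAt g1 (g2 x) x) (hq : ∀ x, 0 < q x) {z z' t : ℝ} (hz : g z = 0)
    (hz' : g z' = 0) (ht : t ∈ Ioo z z') (hg : g t ≠ 0) :
    ∃ ξ ∈ Ioo z z', 0 < (q ξ * g ξ - g2 ξ) * g t := by
  rcases lt_or_gt_of_ne hg with h | h
  · obtain ⟨ξ, hξ, h3⟩ := peak_pos (g := fun x => - g x) (g1 := fun x => - g1 x)
      (g2 := fun x => - g2 x) (fun x => (h1 x).neg) (fun x => (h2 x).neg) hq (z := z) (z' := z')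
      (t := t) (by simp [hz]) (by simp [hz']) ht (by simpa using h)
    refine ⟨ξ, hξ, ?_⟩
    have h4 : q ξ * g ξ - g2 ξ < 0 := by linarith
    exact mul_pos_of_neg_of_neg h4 h
  · obtain ⟨ξ, hξ, h3⟩ := peak_pos h1 h2 hq hz hz' ht h
    exact ⟨ξ, hξ, mul_pos h3 h⟩

/-- `g` alternates in sign at `n+1` increasing points of `[A,B]` -/
def Alt (g : ℝ → ℝ) (n : ℕ) (A B : ℝ) : Prop :=
  ∃ t : ℕ → ℝ, (∀ i ≤ n, A ≤ t i ∧ t i ≤ B) ∧ (∀ i < n, t i < t (i + 1)) ∧
    ∀ i < n, g (t i) * g (t (i + 1)) < 0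

theorem alt_zero {g g1 : ℝ → ℝ} (h1 : ∀ x, HasDerivAt g (g1 x) x) {s t : ℝ} (hst : s < t)
    (h : g s * g t < 0) : ∃ z ∈ Ioo s t, g z = 0 := by
  have hc : ContinuousOn g (Icc s t) := fun x _ => (h1 x).continuousAt.continuousWithinAt
  rcases lt_trichotomy (g s) 0 with h0 | h0 | h0
  · have h2 : 0 < g t := by
      by_contra h3; push Not at h3; nlinarith
    obtain ⟨z, hz, hz0⟩ := intermediate_value_Ioo hst.le hc (⟨h0, h2⟩ : (0:ℝ) ∈ Ioo (g s) (g t))
    exact ⟨z, hz, hz0⟩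
  · rw [h0] at h; simp at h
  · have h2 : g t < 0 := by
      by_contra h3; push Not at h3; nlinarith
    obtain ⟨z, hz, hz0⟩ := intermediate_value_Ioo' hst.le hc (⟨h2, h0⟩ : (0:ℝ) ∈ Ioo (g t) (g s))
    exact ⟨z, hz, hz0⟩

theorem alt_step {g g1 g2 q : ℝ → ℝ} (h1 : ∀ x, HasDerivAt g (g1 x) x)
    (h2 : ∀ x, HasDerivAt g1 (g2 x) x) (hq : ∀ x, 0 < q x) {n : ℕ} {A B : ℝ}
    (h : Alt g (n + 2) A B) : Alt (fun x => q x * g x - g2 x) n A B := by
  obtain ⟨t, ht1, ht2, ht3⟩ := h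
  have hz : ∀ i, ∃ z, i < n + 2 → z ∈ Ioo (t i) (t (i + 1)) ∧ g z = 0 := by
    intro i
    by_cases hi : i < n + 2
    · obtain ⟨z, hz, hz0⟩ := alt_zero h1 (ht2 i hi) (ht3 i hi)
      exact ⟨z, fun _ => ⟨hz, hz0⟩⟩
    · exact ⟨0, fun h => absurd h hi⟩
  choose z hz using hz
  have hx : ∀ i, ∃ ξ, i ≤ n → ξ ∈ Ioo (z i) (z (i + 1)) ∧ 0 < (q ξ * g ξ - g2 ξ) * g (t (i + 1)) := by
    intro i
    by_cases hi : i ≤ n
    · have a1 := hz i (by omega)
      have a2 := hz (i + 1) (by omega)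
      have a3 : g (t (i + 1)) ≠ 0 := by
        intro h0
        have := ht3 i (by omega)
        rw [h0] at this; simp at this
      obtain ⟨ξ, b1, b2⟩ := peak h1 h2 hq a1.2 a2.2
        (show t (i + 1) ∈ Ioo (z i) (z (i + 1)) from ⟨a1.1.2, a2.1.1⟩) a3
      exact ⟨ξ, fun _ => ⟨b1, b2⟩⟩
    · exact ⟨0, fun h => absurd h hi⟩
  choose ξ hx using hx
  refine ⟨ξ, fun i hi => ?_, fun i hi => ?_, fun i hi => ?_⟩
  · have a1 := hz i (by omega)
    have a2 := hz (i + 1) (by omega)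
    have a3 := hx i hi
    have a4 := (ht1 i (by omega)).1
    have a5 := (ht1 (i + 2) (by omega)).2
    exact ⟨by linarith [a1.1.1, a3.1.1], by linarith [a2.1.2, a3.1.2]⟩
  · have a3 := hx i hi.le
    have a4 := hx (i + 1) hi
    linarith [a3.1.2, a4.1.1]
  · have a3 := (hx i hi.le).2
    have a4 := (hx (i + 1) hi).2
    have a5 := ht3 (i + 1) (by omega)
    have a6 := mul_pos a3 a4
    by_contra hcon
    push Not at hcon
    have a7 : (q (ξ i) * g (ξ i) - g2 (ξ i)) * g (t (i + 1)) *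
        ((q (ξ (i + 1)) * g (ξ (i + 1)) - g2 (ξ (i + 1))) * g (t (i + 1 + 1))) =
        ((q (ξ i) * g (ξ i) - g2 (ξ i)) * (q (ξ (i + 1)) * g (ξ (i + 1)) - g2 (ξ (i + 1)))) *
        (g (t (i + 1)) * g (t (i + 1 + 1))) := by ring
    rw [a7] at a6
    nlinarith [mul_nonneg hcon (neg_nonneg.2 a5.le)]

theorem alt_iter {G G1 G2 : ℕ → ℝ → ℝ} {q : ℝ → ℝ} (h1 : ∀ j x, HasDerivAt (G j) (G1 j x) x)
    (h2 : ∀ j x, HasDerivAt (G1 j) (G2 j x) x) (hq : ∀ x, 0 < q x)
    (hG : ∀ j x, G (j + 1) x = q x * G j x - G2 j x) {A B : ℝ} (j : ℕ) :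
    ∀ n, Alt (G 0) (n + 2 * j) A B → Alt (G j) n A B := by
  induction j with
  | zero => intro n h; simpa using h
  | succ j ih =>
    intro n h
    have h3 : Alt (G j) (n + 2) A B := ih (n + 2) (by
      have e : n + 2 + 2 * j = n + 2 * (j + 1) := by ring
      rw [e]; exact h)
    have h4 := alt_step (h1 j) (h2 j) hq h3
    have e : (fun x => q x * G j x - G2 j x) = G (j + 1) := funext fun x => (hG j x).symm
    rwa [e] at h4

/-- Sturm comparison: gap between zeros -/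
theorem gap_pos {w w1 Q : ℝ → ℝ} {κ ξ η : ℝ} (h1 : ∀ x, HasDerivAt w (w1 x) x)
    (h2 : ∀ x, HasDerivAt w1 (- Q x * w x) x) (hκ : 0 < κ) (hQ : ∀ x, Q x < κ ^ 2)
    (hξη : ξ < η) (hgap : κ * (η - ξ) < Real.pi) (h0 : w ξ = 0) (h0' : w η = 0) (t : ℝ)
    (ht : t ∈ Ioo ξ η) : w t ≤ 0 := by
  by_contra hpos
  push Not at hpos
  set ε := (Real.pi - κ * (η - ξ)) / 2 with hε
  have hε0 : 0 < ε := by rw [hε]; linarith
  set s : ℝ → ℝ := fun x => Real.sin (κ * (x - ξ) + ε) with hs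
  have hs1 : ∀ x, HasDerivAt s (κ * Real.cos (κ * (x - ξ) + ε)) x := by
    intro x
    have h3 : HasDerivAt (fun x : ℝ => κ * (x - ξ) + ε) κ x := by
      have := (((hasDerivAt_id x).sub_const ξ).const_mul κ).add_const ε
      simpa using this
    have h4 := h3.sin
    rw [mul_comm] at h4
    exact h4
  have hs2 : ∀ x, HasDerivAt (fun x => κ * Real.cos (κ * (x - ξ) + ε)) (- κ ^ 2 * s x) x := by
    intro x
    have h3 : HasDerivAt (fun x : ℝ => κ * (x - ξ) + ε) κ x := by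
      have := (((hasDerivAt_id x).sub_const ξ).const_mul κ).add_const ε
      simpa using this
    have h4 := h3.cos.const_mul κ
    refine h4.congr_deriv ?_
    show κ * (-Real.sin (κ * (x - ξ) + ε) * κ) = -κ ^ 2 * Real.sin (κ * (x - ξ) + ε)
    ring
  have hspos : ∀ x ∈ Icc ξ η, 0 < s x := by
    intro x hx
    apply Real.sin_pos_of_pos_of_lt_pi
    · have := mul_nonneg hκ.le (sub_nonneg.2 hx.1); linarith
    · have := mul_le_mul_of_nonneg_left (sub_le_sub_right hx.2 ξ) hκ.le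
      rw [hε]; linarith
  have hc : ContinuousOn (fun x => w x / s x) (Icc ξ η) := by
    apply ContinuousOn.div
    · exact fun x _ => (h1 x).continuousAt.continuousWithinAt
    · exact fun x _ => (hs1 x).continuousAt.continuousWithinAt
    · exact fun x hx => (hspos x hx).ne'
  obtain ⟨x, hx, hmax⟩ := isCompact_Icc.exists_isMaxOn
    (⟨t, Ioo_subset_Icc_self ht⟩ : (Icc ξ η).Nonempty) hc
  set c := w x / s x with hcdef
  have hct : w t / s t ≤ c := hmax (Ioo_subset_Icc_self ht)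
  have hc0 : 0 < c := lt_of_lt_of_le (div_pos hpos (hspos t (Ioo_subset_Icc_self ht))) hct
  have hxξ : x ≠ ξ := by
    intro h; rw [hcdef, h, h0] at hc0; simp at hc0
  have hxη : x ≠ η := by
    intro h; rw [hcdef, h, h0'] at hc0; simp at hc0
  have hxI : x ∈ Ioo ξ η := ⟨lt_of_le_of_ne hx.1 (Ne.symm hxξ), lt_of_le_of_ne hx.2 hxη⟩
  have hwx : w x = c * s x := by rw [hcdef, div_mul_cancel₀ _ (hspos x hx).ne']
  -- u = w - c s
  have hu1 : ∀ y, HasDerivAt (fun y => w y - c * s y)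
      (w1 y - c * (κ * Real.cos (κ * (y - ξ) + ε))) y := fun y => (h1 y).sub ((hs1 y).const_mul c)
  have hu2 : ∀ y, HasDerivAt (fun y => w1 y - c * (κ * Real.cos (κ * (y - ξ) + ε)))
      (- Q y * w y - c * (- κ ^ 2 * s y)) y := fun y => (h2 y).sub ((hs2 y).const_mul c)
  have hmaxu : IsLocalMax (fun y => w y - c * s y) x := by
    filter_upwards [Icc_mem_nhds hxI.1 hxI.2] with y hy
    have h5 : w y / s y ≤ c := hmax hy
    rw [div_le_iff₀ (hspos y hy)] at h5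
    show w y - c * s y ≤ w x - c * s x
    rw [hwx]; linarith
  have h6 := snd_max hu1 hu2 hmaxu
  rw [hwx] at h6
  have h7 : 0 < (κ ^ 2 - Q x) * (c * s x) :=
    mul_pos (by linarith [hQ x]) (mul_pos hc0 (hspos x hx))
  nlinarith

theorem gap_zero {w w1 Q : ℝ → ℝ} {κ ξ η : ℝ} (h1 : ∀ x, HasDerivAt w (w1 x) x)
    (h2 : ∀ x, HasDerivAt w1 (- Q x * w x) x) (hκ : 0 < κ) (hQ : ∀ x, Q x < κ ^ 2)
    (hξη : ξ < η) (hgap : κ * (η - ξ) < Real.pi) (h0 : w ξ = 0) (h0' : w η = 0) (t : ℝ)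
    (ht : t ∈ Ioo ξ η) : w t = 0 := by
  apply le_antisymm (gap_pos h1 h2 hκ hQ hξη hgap h0 h0' t ht)
  have := gap_pos (w := fun x => - w x) (w1 := fun x => - w1 x) (Q := Q) (fun x => (h1 x).neg)
    (fun x => by
      have := (h2 x).neg
      exact this.congr_deriv (by ring)) hκ hQ hξη hgap (by simp [h0]) (by simp [h0']) t ht
  linarith

/-- uniqueness for the Cauchy problem, to the right -/
theorem ode_right {w w1 k : ℝ → ℝ} {x0 : ℝ} (h1 : ∀ x, HasDerivAt w (w1 x) x)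
    (h2 : ∀ x, HasDerivAt w1 (k x * w x) x) (hk : Continuous k) (h0 : w x0 = 0) (h0' : w1 x0 = 0)
    {X : ℝ} (hX : x0 ≤ X) : w X = 0 := by
  obtain ⟨C, hC⟩ := (isCompact_Icc (a := x0) (b := X)).exists_bound_of_continuousOn hk.continuousOn
  set e : ℝ → ℝ := fun x => (w x ^ 2 + w1 x ^ 2) * Real.exp (-(1 + C) * (x - x0)) with he
  have hd : ∀ x, HasDerivAt e ((2 * w x * w1 x + 2 * w1 x * (k x * w x)) *
      Real.exp (-(1 + C) * (x - x0)) + (w x ^ 2 + w1 x ^ 2) *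
      (Real.exp (-(1 + C) * (x - x0)) * (-(1 + C)))) x := by
    intro x
    have a1 : HasDerivAt (fun x => w x ^ 2 + w1 x ^ 2)
        (2 * w x * w1 x + 2 * w1 x * (k x * w x)) x := by
      have := ((h1 x).fun_pow 2).fun_add ((h2 x).fun_pow 2)
      exact this.congr_deriv (by norm_num)
    have a2 : HasDerivAt (fun x => Real.exp (-(1 + C) * (x - x0)))
        (Real.exp (-(1 + C) * (x - x0)) * (-(1 + C))) x := by
      have := (((hasDerivAt_id x).sub_const x0).const_mul (-(1 + C))).exp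
      simpa using this
    exact a1.mul a2
  have hanti : AntitoneOn e (Icc x0 X) := by
    apply antitoneOn_of_deriv_nonpos (convex_Icc _ _)
      (fun x _ => (hd x).continuousAt.continuousWithinAt)
      (fun x _ => (hd x).differentiableAt.differentiableWithinAt)
    intro x hx
    rw [interior_Icc] at hx
    rw [(hd x).deriv]
    have hkx : |k x| ≤ C := hC x (Ioo_subset_Icc_self hx)
    have b1 := abs_le.1 hkx
    have b2 := Real.exp_pos (-(1 + C) * (x - x0))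
    have b3 : 2 * w x * w1 x + 2 * w1 x * (k x * w x) ≤ (1 + C) * (w x ^ 2 + w1 x ^ 2) := by
      nlinarith [sq_nonneg (w x - w1 x), sq_nonneg (w x + w1 x), mul_nonneg
        (sub_nonneg.2 b1.2) (sq_nonneg (w x + w1 x)), mul_nonneg
        (by linarith [b1.1] : 0 ≤ C + k x) (sq_nonneg (w x - w1 x))]
    nlinarith
  have h3 := hanti (left_mem_Icc.2 hX) (right_mem_Icc.2 hX) hX
  have h4 : e x0 = 0 := by simp [he, h0, h0']
  rw [h4] at h3
  have h5 := Real.exp_pos (-(1 + C) * (X - x0))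
  have h6 : (w X ^ 2 + w1 X ^ 2) ≤ 0 := by
    by_contra h7
    push Not at h7
    have := mul_pos h7 h5
    simp only [he] at h3
    linarith
  nlinarith [sq_nonneg (w X), sq_nonneg (w1 X)]

theorem ode_unique {w w1 k : ℝ → ℝ} {x0 : ℝ} (h1 : ∀ x, HasDerivAt w (w1 x) x)
    (h2 : ∀ x, HasDerivAt w1 (k x * w x) x) (hk : Continuous k) (h0 : w x0 = 0) (h0' : w1 x0 = 0)
    (X : ℝ) : w X = 0 := by
  rcases le_total x0 X with hX | hX
  · exact ode_right h1 h2 hk h0 h0' hX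
  · have := ode_right (w := fun x => w (-x)) (w1 := fun x => - w1 (-x)) (k := fun x => k (-x))
      (x0 := -x0) (X := -X) (fun x => by
        have := (h1 (-x)).scomp x (hasDerivAt_neg x)
        exact this.congr_deriv (by simp)) (fun x => by
        have := ((h2 (-x)).scomp x (hasDerivAt_neg x)).neg
        exact this.congr_deriv (by simp)) (hk.comp continuous_neg) (by simpa using h0) (by simpa using h0')
      (by linarith)
    simpa using this

end Pool.Agent.H900R3.Liou
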