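import Pool.Agent.H900R3.Liou.Cell

open Set Filter Topology MeasureTheory
open scoped ContDiff Interval

namespace Pool.Agent.H900R3.Liou
open Pool.Agent.H900R3.Dir

variable (D : Data)

theorem Sol.add {φ ψ : ℂ → ℝ} (h : Sol D φ) (h' : Sol D ψ) : Sol D (fun z => φ z + ψ z) where
  toPer := h.toPer.add h'.toPer
  pde z := by
    rw [L_add D h.smooth h'.smooth, B_add D h.smooth h'.smooth]
    have h1 := h.pde z
    have h2 := h'.pde z
    linarith

theorem Sol.smul {φ : ℂ → ℝ} (h : Sol D φ) (c : ℝ) : Sol D (fun z => c * φ z) where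
  toPer := (Per.const c).mul h.toPer
  pde z := by
    rw [L_smul D h.smooth, B_smul D h.smooth]
    have h1 := h.pde z
    have : c * (Liou.L D φ z + B D φ z) = 0 := by rw [h1]; ring
    linarith

theorem Sol.zero : Sol D (fun _ => 0) where
  toPer := Per.const 0
  pde z := by
    have h0 : dX (fun _ : ℂ => (0 : ℝ)) = fun _ => 0 := by funext z; simp [dX]
    have h1 : dY (fun _ : ℂ => (0 : ℝ)) = fun _ => 0 := by funext z; simp [dY]
    simp [Liou.L, B, h0, h1]

/-- the space of solutions -/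
def E : Submodule ℝ (ℂ → ℝ) where
  carrier := {φ | Sol D φ}
  add_mem' := fun h h' => Sol.add D h h'
  zero_mem' := Sol.zero D
  smul_mem' := fun c _ h => Sol.smul D h c

theorem energy {φ : ℂ → ℝ} (h : Sol D φ) :
    J D.a D.b (fun z => dX φ z * dX φ z) + J D.a D.b (fun z => dY φ z * dY φ z) ≤
      D.lam * (D.F + D.H) * J D.a D.b (fun z => φ z * φ z) := by
  rw [J_partsX D.ha D.hb h.toPer h.toPer.dX, J_partsY h.toPer h.toPer.dY]
  have h1 : J D.a D.b (fun z => φ z * dX (dX φ) z) + J D.a D.b (fun z => φ z * dY (dY φ) z) =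
      J D.a D.b (fun z => φ z * dX (dX φ) z + φ z * dY (dY φ) z) :=
    (J_add (h.toPer.mul h.toPer.dX.dX).smooth.continuous
      (h.toPer.mul h.toPer.dY.dY).smooth.continuous).symm
  have h2 : J D.a D.b (fun z => (D.lam * (D.F + D.H) * (-1)) * (φ z * φ z)) ≤
      J D.a D.b (fun z => φ z * dX (dX φ) z + φ z * dY (dY φ) z) := by
    apply J_mono D.ha D.hb
    · exact ((Per.const _).mul (h.toPer.mul h.toPer)).smooth.continuous
    · exact ((h.toPer.mul h.toPer.dX.dX).add (h.toPer.mul h.toPer.dY.dY)).smooth.continuous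
    · intro z
      have h3 := h.pde z
      simp only [L, B] at h3
      have h4 : φ z * dX (dX φ) z + φ z * dY (dY φ) z =
          - (D.lam * (D.f z.re + D.h z.im) * (φ z * φ z)) := by
        have : dX (dX φ) z = - (dY (dY φ) z + D.lam * (D.f z.re + D.h z.im) * φ z) := by linarith
        rw [this]; ring
      rw [h4]
      have h5 : D.lam * (D.f z.re + D.h z.im) ≤ D.lam * (D.F + D.H) :=
        mul_le_mul_of_nonneg_left (add_le_add (D.hF _) (D.hH _)) D.hlam.le
      have h6 := mul_le_mul_of_nonneg_right h5 (mul_self_nonneg (φ z))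
      linarith
  rw [J_smul] at h2
  linarith

theorem finite_aux : ∃ n : ℕ, 0 < n ∧ ∀ φ : ℂ → ℝ, Sol D φ →
    (∀ i < n, ∀ j < n, R2 (i * (D.a / n)) ((i + 1 : ℕ) * (D.a / n)) (j * (D.b / n))
      ((j + 1 : ℕ) * (D.b / n)) φ = 0) → φ = 0 := by
  set Λ := |D.lam * (D.F + D.H)| with hΛ
  obtain ⟨n, hn⟩ := exists_nat_gt ((D.a ^ 2 + D.b ^ 2) * (Λ + 1))
  have hΛ0 : 0 ≤ Λ := abs_nonneg _
  have hab : 0 < D.a ^ 2 + D.b ^ 2 := by have := D.ha; positivity
  have hn0 : (0 : ℝ) < n := lt_of_le_of_lt (by positivity) hn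
  have hn1 : (1 : ℝ) ≤ n := by exact_mod_cast (by exact_mod_cast hn0 : 0 < n)
  refine ⟨n, by exact_mod_cast hn0, fun φ h h0 => ?_⟩
  have h1 := poinJ D.ha D.hb (by exact_mod_cast hn0 : 0 < n) (one_of h.smooth) h0
  have e1 : (fun z => φ z ^ 2) = fun z => φ z * φ z := by funext z; ring
  have e2 : (fun z => dX φ z ^ 2) = fun z => dX φ z * dX φ z := by funext z; ring
  have e3 : (fun z => dY φ z ^ 2) = fun z => dY φ z * dY φ z := by funext z; ring
  rw [e1, e2, e3] at h1
  have h2 := energy D h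
  apply J_zero D.ha D.hb h.toPer
  set p := J D.a D.b (fun z => dX φ z * dX φ z)
  set q := J D.a D.b (fun z => dY φ z * dY φ z)
  set m := J D.a D.b (fun z => φ z * φ z)
  have hp : 0 ≤ p := R2_nonneg D.ha.le D.hb.le fun z => mul_self_nonneg _
  have hq : 0 ≤ q := R2_nonneg D.ha.le D.hb.le fun z => mul_self_nonneg _
  have hm : 0 ≤ m := R2_nonneg D.ha.le D.hb.le fun z => mul_self_nonneg _
  have h3 : p + q ≤ Λ * m := h2.trans (mul_le_mul_of_nonneg_right (le_abs_self _) hm)
  set ε := (D.a ^ 2 + D.b ^ 2) / n ^ 2 with hε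
  have hn2 : (n : ℝ) ≤ n ^ 2 := by nlinarith
  have hε1 : ε * (Λ + 1) < 1 := by
    rw [hε, div_mul_eq_mul_div, div_lt_one (by positivity)]
    linarith
  have hε0 : 0 < ε := by positivity
  have h4 : (D.a / n) ^ 2 / 6 ≤ ε := by
    rw [hε, div_pow, div_div, div_le_div_iff₀ (by positivity) (by positivity)]
    have : 0 ≤ D.b ^ 2 := sq_nonneg _
    nlinarith [sq_nonneg D.a, mul_nonneg (sq_nonneg D.a) (sq_nonneg (n : ℝ)),
      mul_nonneg (sq_nonneg D.b) (sq_nonneg (n : ℝ))]
  have h5 : (D.b / n) ^ 2 / 6 ≤ ε := by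
    rw [hε, div_pow, div_div, div_le_div_iff₀ (by positivity) (by positivity)]
    nlinarith [sq_nonneg D.a, mul_nonneg (sq_nonneg D.a) (sq_nonneg (n : ℝ)),
      mul_nonneg (sq_nonneg D.b) (sq_nonneg (n : ℝ))]
  have h6 : m ≤ ε * (p + q) := by
    have a1 := mul_le_mul_of_nonneg_right h4 hp
    have a2 := mul_le_mul_of_nonneg_right h5 hq
    linarith
  have h7 : m ≤ ε * (Λ * m) := h6.trans (mul_le_mul_of_nonneg_left h3 hε0.le)
  nlinarith

instance finE : FiniteDimensional ℝ (E D) := by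
  obtain ⟨n, hn, h⟩ := finite_aux D
  let c : E D →ₗ[ℝ] (Fin n → Fin n → ℝ) :=
    { toFun := fun φ i j => R2 (i * (D.a / n)) ((i + 1 : ℕ) * (D.a / n)) (j * (D.b / n))
        ((j + 1 : ℕ) * (D.b / n)) φ.1
      map_add' := fun φ ψ => by
        funext i j
        exact R2_add (φ.2 : Sol D φ.1).smooth.continuous (ψ.2 : Sol D ψ.1).smooth.continuous
      map_smul' := fun r φ => by
        funext i j
        exact R2_smul r }
  apply FiniteDimensional.of_injective c
  rw [injective_iff_map_eq_zero]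
  intro φ h0
  apply Subtype.ext
  apply h φ.1 φ.2
  intro i hi j hj
  exact congrFun (congrFun h0 ⟨i, hi⟩) ⟨j, hj⟩

theorem J_comm {a b : ℝ} (φ ψ : ℂ → ℝ) :
    J a b (fun z => φ z * ψ z) = J a b (fun z => ψ z * φ z) := by
  congr 1; funext z; ring

/-- inner product on the space of solutions -/
noncomputable def coreE : InnerProductSpace.Core ℝ (E D) where
  inner φ ψ := J D.a D.b (fun z => φ.1 z * ψ.1 z)
  conj_inner_symm φ ψ := by simpa using J_comm _ _
  re_inner_nonneg φ := by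
    have : 0 ≤ J D.a D.b (fun z => φ.1 z * φ.1 z) :=
      R2_nonneg D.ha.le D.hb.le fun z => mul_self_nonneg _
    simpa using this
  add_left φ ψ χ := by
    have h1 : Sol D φ.1 := φ.2
    have h2 : Sol D ψ.1 := ψ.2
    have h3 : Sol D χ.1 := χ.2
    rw [← J_add (h1.toPer.mul h3.toPer).smooth.continuous (h2.toPer.mul h3.toPer).smooth.continuous]
    congr 1; funext z
    show (φ.1 z + ψ.1 z) * χ.1 z = _
    ring
  smul_left φ ψ r := by
    simp only [RCLike.conj_to_real] 
    rw [← J_smul]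
    congr 1; funext z
    show (r * φ.1 z) * ψ.1 z = _
    ring
  definite φ h := by
    apply Subtype.ext
    exact J_zero D.ha D.hb (φ.2 : Sol D φ.1).toPer h

noncomputable instance : NormedAddCommGroup (E D) := (coreE D).toNormedAddCommGroup
noncomputable instance : InnerProductSpace ℝ (E D) := InnerProductSpace.ofCore (coreE D).toCore

/-- the operator `L` on the space of solutions -/
noncomputable def T : E D →ₗ[ℝ] E D where
  toFun φ := ⟨L D φ.1, Sol.L D φ.2⟩
  map_add' φ ψ := by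
    apply Subtype.ext
    exact L_add D (φ.2 : Sol D φ.1).smooth (ψ.2 : Sol D ψ.1).smooth
  map_smul' r φ := by
    apply Subtype.ext
    exact L_smul D (φ.2 : Sol D φ.1).smooth r

theorem inner_eq (φ ψ : E D) : inner ℝ φ ψ = J D.a D.b (fun z => φ.1 z * ψ.1 z) := rfl

theorem T_symm : (T D).IsSymmetric := by
  intro φ ψ
  have h1 : Per D.a D.b φ.1 := (φ.2 : Sol D φ.1).toPer
  have h2 : Per D.a D.b ψ.1 := (ψ.2 : Sol D ψ.1).toPer
  rw [inner_eq, inner_eq]
  show J D.a D.b (fun z => L D φ.1 z * ψ.1 z) = J D.a D.b (fun z => φ.1 z * L D ψ.1 z)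
  have e1 : (fun z => L D φ.1 z * ψ.1 z) = fun z => dX (dX φ.1) z * ψ.1 z +
      (D.lam * D.f z.re) * (φ.1 z * ψ.1 z) := by funext z; simp only [L]; ring
  have e2 : (fun z => φ.1 z * L D ψ.1 z) = fun z => φ.1 z * dX (dX ψ.1) z +
      (D.lam * D.f z.re) * (φ.1 z * ψ.1 z) := by funext z; simp only [L]; ring
  have hc : Continuous fun z => (D.lam * D.f z.re) * (φ.1 z * ψ.1 z) :=
    ((lf_smooth D).mul (h1.mul h2).smooth).continuous
  rw [e1, e2, J_add (h1.dX.dX.mul h2).smooth.continuous hc,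
    J_add (h1.mul h2.dX.dX).smooth.continuous hc, J_partsX D.ha D.hb h1.dX h2,
    J_partsX D.ha D.hb h1 h2.dX]
  ring

theorem iSup_top : (⨆ μ, Module.End.eigenspace (T D) μ) = ⊤ := by
  have := (T_symm D).orthogonalComplement_iSup_eigenspaces_eq_bot
  rwa [Submodule.orthogonal_eq_bot_iff] at this

/-- finite sums of separated eigenvectors -/
theorem decomp {φ : ℂ → ℝ} (h : Sol D φ) : ∃ (S : Finset ℝ) (g : ℝ → ℂ → ℝ),
    (∀ μ, Sol D (g μ) ∧ ∀ z, L D (g μ) z = μ * g μ z) ∧ ∀ z, φ z = ∑ μ ∈ S, g μ z := by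
  have h1 : (⟨φ, h⟩ : E D) ∈ ⨆ μ, Module.End.eigenspace (T D) μ := by
    rw [iSup_top]; trivial
  rw [Submodule.mem_iSup_iff_exists_finsupp] at h1
  obtain ⟨g, hg, hsum⟩ := h1
  refine ⟨g.support, fun μ => (g μ).1, fun μ => ⟨(g μ).2, fun z => ?_⟩, fun z => ?_⟩
  · have h2 := Module.End.mem_eigenspace_iff.1 (hg μ)
    exact congrFun (congrArg Subtype.val h2) z
  · have h3 := congrFun (congrArg Subtype.val hsum) z
    simp only [Finsupp.sum, Submodule.coe_sum, Finset.sum_apply] at h3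
    exact h3.symm

/-- an invariant subspace contains a separated solution -/
theorem inv_eig (I : Submodule ℝ (E D)) (hI : ∀ v ∈ I, T D v ∈ I) (hne : I ≠ ⊥) :
    ∃ ψ ∈ I, ψ ≠ 0 ∧ ∃ μ : ℝ, ∀ z, L D ψ.1 z = μ * ψ.1 z := by
  have h1 := ((T_symm D).restrict_invariant hI).orthogonalComplement_iSup_eigenspaces_eq_bot
  rw [Submodule.orthogonal_eq_bot_iff] at h1
  by_contra hcon
  push Not at hcon
  have h2 : ∀ μ, Module.End.eigenspace ((T D).restrict hI) μ = ⊥ := by
    intro μ
    rw [eq_bot_iff]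
    intro v hv
    rw [Module.End.mem_eigenspace_iff] at hv
    by_contra hv0
    have hv1 : v.1 ≠ 0 := fun h0 => hv0 (by
      rw [Submodule.mem_bot]; exact Subtype.ext h0)
    obtain ⟨z, hz⟩ := hcon v.1 v.2 hv1 μ
    apply hz
    have h3 := congrArg Subtype.val hv
    exact congrFun (congrArg Subtype.val h3) z
  rw [iSup_congr h2, iSup_bot] at h1
  apply hne
  rw [eq_bot_iff]
  intro v hv
  have : (⟨v, hv⟩ : I) ∈ (⊥ : Submodule ℝ I) := by rw [h1]; trivial
  rw [Submodule.mem_bot] at this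
  rw [Submodule.mem_bot]
  exact congrArg Subtype.val this

end Pool.Agent.H900R3.Liou
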