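import Pool.Agent.H900R3.Liou.Sep
import Pool.Agent.H900R3.Liou.Max

open Set Filter Topology MeasureTheory
open scoped ContDiff Interval

namespace Pool.Agent.H900R3.Liou
open Pool.Agent.H900R3.Dir

variable (D : Data)

theorem sepX {ψ : ℂ → ℝ} {μ : ℝ} (h : ∀ z, L D ψ z = μ * ψ z) (z : ℂ) :
    dX (dX ψ) z = (μ - D.lam * D.f z.re) * ψ z := by
  have := h z
  simp only [L] at this
  linarith

theorem sepY {ψ : ℂ → ℝ} {μ : ℝ} (hs : Sol D ψ) (h : ∀ z, L D ψ z = μ * ψ z) (z : ℂ) :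
    dY (dY ψ) z = (-μ - D.lam * D.h z.im) * ψ z := by
  have h1 := h z
  have h2 := hs.pde z
  rw [h1] at h2
  simp only [B] at h2
  linarith

theorem sepXY {ψ : ℂ → ℝ} {μ : ℝ} (hs : Sol D ψ) (h : ∀ z, L D ψ z = μ * ψ z) (z : ℂ) :
    dX (dX (dY ψ)) z = (μ - D.lam * D.f z.re) * dY ψ z := by
  have h1 : L D ψ = fun z => μ * ψ z := funext h
  have e3 : dY (L D ψ) = fun z => dY (dX (dX ψ)) z + D.lam * D.f z.re * dY ψ z := by
    unfold L; rw [dY_add (dX_smooth (dX_smooth hs.smooth)) ((lf_smooth D).mul hs.smooth),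
      dY_lfm D hs.smooth]
  rw [h1, dY_smul hs.smooth] at e3
  have h2 : μ * dY ψ z = dY (dX (dX ψ)) z + D.lam * D.f z.re * dY ψ z := congrFun e3 z
  rw [dXY hs.smooth, dXY (dX_smooth hs.smooth)]
  linarith

theorem zero_of_data {ψ : ℂ → ℝ} {μ : ℝ} (hs : Sol D ψ) (h : ∀ z, L D ψ z = μ * ψ z) {z : ℂ}
    (h0 : ψ z = 0) (h1 : dX ψ z = 0) (h2 : dY ψ z = 0) (h3 : dX (dY ψ) z = 0) : ψ = 0 := by
  have hk : Continuous fun x : ℝ => μ - D.lam * D.f x :=
    continuous_const.sub (continuous_const.mul D.hf.continuous)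
  have hk2 : Continuous fun y : ℝ => -μ - D.lam * D.h y :=
    continuous_const.sub (continuous_const.mul D.hh.continuous)
  have a1 : ∀ x : ℝ, ψ ⟨x, z.im⟩ = 0 := fun x =>
    ode_unique (w := fun x => ψ ⟨x, z.im⟩) (w1 := fun x => dX ψ ⟨x, z.im⟩)
      (k := fun x => μ - D.lam * D.f x) (x0 := z.re)
      (fun x => hdX hs.smooth x z.im) (fun x => by
        have := hdX (dX_smooth hs.smooth) x z.im
        rwa [sepX D h] at this) hk h0 h1 x
  have a2 : ∀ x : ℝ, dY ψ ⟨x, z.im⟩ = 0 := fun x =>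
    ode_unique (w := fun x => dY ψ ⟨x, z.im⟩) (w1 := fun x => dX (dY ψ) ⟨x, z.im⟩)
      (k := fun x => μ - D.lam * D.f x) (x0 := z.re)
      (fun x => hdX (dY_smooth hs.smooth) x z.im) (fun x => by
        have := hdX (dX_smooth (dY_smooth hs.smooth)) x z.im
        rwa [sepXY D hs h] at this) hk h2 h3 x
  have a3 : ∀ x y : ℝ, ψ ⟨x, y⟩ = 0 := fun x y =>
    ode_unique (w := fun y => ψ ⟨x, y⟩) (w1 := fun y => dY ψ ⟨x, y⟩)
      (k := fun y => -μ - D.lam * D.h y) (x0 := z.im)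
      (fun y => hdY hs.smooth x y) (fun y => by
        have := hdY (dY_smooth hs.smooth) x y
        rwa [sepY D hs h] at this) hk2 (a1 x) (a2 x) y
  funext w
  exact a3 w.re w.im

/-- iterated derivatives in the first variable -/
noncomputable def P (φ : ℂ → ℝ) (j : ℕ) : ℂ → ℝ := dX^[j] φ

theorem P_zero (φ : ℂ → ℝ) : P φ 0 = φ := rfl
theorem P_succ (φ : ℂ → ℝ) (j : ℕ) : P φ (j + 1) = dX (P φ j) := Function.iterate_succ_apply' _ _ _
theorem P_succ' (φ : ℂ → ℝ) (j : ℕ) : P φ (j + 1) = P (dX φ) j := rfl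

theorem P_smooth {φ : ℂ → ℝ} (h : ContDiff ℝ ∞ φ) (j : ℕ) : ContDiff ℝ ∞ (P φ j) := by
  induction j with
  | zero => exact h
  | succ j ih => rw [P_succ]; exact dX_smooth ih

theorem P_add {φ ψ : ℂ → ℝ} (h : ContDiff ℝ ∞ φ) (h' : ContDiff ℝ ∞ ψ) (j : ℕ) :
    P (fun z => φ z + ψ z) j = fun z => P φ j z + P ψ j z := by
  induction j with
  | zero => rfl
  | succ j ih => rw [P_succ, ih, dX_add (P_smooth h j) (P_smooth h' j)]; simp only [P_succ]

theorem P_smul {φ : ℂ → ℝ} (h : ContDiff ℝ ∞ φ) (c : ℝ) (j : ℕ) :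
    P (fun z => c * φ z) j = fun z => c * P φ j z := by
  induction j with
  | zero => rfl
  | succ j ih => rw [P_succ, ih, dX_smul (P_smooth h j)]; simp only [P_succ]

theorem P_dY {φ : ℂ → ℝ} (h : ContDiff ℝ ∞ φ) (j : ℕ) : P (dY φ) j = dY (P φ j) := by
  induction j with
  | zero => rfl
  | succ j ih => rw [P_succ, ih, dXY (P_smooth h j), ← P_succ]

theorem P_mul_zero (k : ℕ) : ∀ {g ψ : ℂ → ℝ}, ContDiff ℝ ∞ g → ContDiff ℝ ∞ ψ → ∀ {z : ℂ},
    (∀ i ≤ k, P ψ i z = 0) → P (fun z => g z * ψ z) k z = 0 := by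
  induction k with
  | zero =>
    intro g ψ hg hψ z h0
    show g z * ψ z = 0
    have : ψ z = 0 := h0 0 le_rfl
    rw [this]; ring
  | succ k ih =>
    intro g ψ hg hψ z h0
    rw [P_succ', dX_mul hg hψ, P_add ((dX_smooth hg).mul hψ) (hg.mul (dX_smooth hψ))]
    have a1 := ih (dX_smooth hg) hψ (z := z) (fun i hi => h0 i (by omega))
    have a2 := ih hg (dX_smooth hψ) (z := z) (fun i hi => by
      have := h0 (i + 1) (by omega)
      rwa [P_succ'] at this)
    simp only [a1, a2, add_zero]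

/-- jets of order less than `m` vanish -/
def TT (φ : ℂ → ℝ) (m : ℕ) : Set ℂ :=
  {z | (∀ j < m, P φ j z = 0) ∧ ∀ j, j + 1 < m → P (dY φ) j z = 0}

theorem no_inf {φ : ℂ → ℝ} (h : Sol D φ) (hne : φ ≠ 0) (z : ℂ) (hz : ∀ m, z ∈ TT φ m) : False := by
  let I : Submodule ℝ (E D) :=
    { carrier := {ψ | ∀ j, P ψ.1 j z = 0 ∧ P (dY ψ.1) j z = 0}
      add_mem' := by
        intro ψ χ h1 h2 j
        have s1 : ContDiff ℝ ∞ ψ.1 := (ψ.2 : Sol D ψ.1).smooth
        have s2 : ContDiff ℝ ∞ χ.1 := (χ.2 : Sol D χ.1).smooth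
        constructor
        · have := congrFun (P_add s1 s2 j) z
          refine this.trans ?_
          show P ψ.1 j z + P χ.1 j z = 0
          rw [(h1 j).1, (h2 j).1]; ring
        · have e : dY (ψ + χ).1 = fun z => dY ψ.1 z + dY χ.1 z := dY_add s1 s2
          rw [e, P_add (dY_smooth s1) (dY_smooth s2)]
          show P (dY ψ.1) j z + P (dY χ.1) j z = 0
          rw [(h1 j).2, (h2 j).2]; ring
      zero_mem' := by
        intro j
        have e0 : ((0 : E D).1) = fun z => (0 : ℝ) * (0 : ℝ) := by funext z; simp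
        have e1 : dY ((0 : E D).1) = fun z => (0 : ℝ) * (0 : ℝ) := by
          funext z; rw [e0]; simp [dY]
        have e2 : P (fun _ => (0 : ℝ) * (0 : ℝ)) j z = 0 := by
          rw [P_smul (φ := fun _ => (0 : ℝ)) contDiff_const]; ring
        rw [e0, e1] at *
        exact ⟨e2, e2⟩
      smul_mem' := by
        intro c ψ h1 j
        have s1 : ContDiff ℝ ∞ ψ.1 := (ψ.2 : Sol D ψ.1).smooth
        constructor
        · have := congrFun (P_smul s1 c j) z
          refine this.trans ?_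
          show c * P ψ.1 j z = 0
          rw [(h1 j).1]; ring
        · have e : dY (c • ψ).1 = fun z => c * dY ψ.1 z := dY_smul s1 c
          rw [e, P_smul (dY_smooth s1)]
          show c * P (dY ψ.1) j z = 0
          rw [(h1 j).2]; ring }
  have hI : ∀ v ∈ I, T D v ∈ I := by
    intro v hv j
    have hv' : ∀ j, P v.1 j z = 0 ∧ P (dY v.1) j z = 0 := hv
    have s1 : ContDiff ℝ ∞ v.1 := (v.2 : Sol D v.1).smooth
    constructor
    · show P (L D v.1) j z = 0
      unfold L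
      rw [P_add (dX_smooth (dX_smooth s1)) ((lf_smooth D).mul s1)]
      have a1 := P_mul_zero j (lf_smooth D) s1 (z := z) (fun i _ => (hv' i).1)
      have a2 := (hv' (j + 2)).1
      rw [P_succ', P_succ'] at a2
      simp only [a1, a2, add_zero]
    · show P (dY (L D v.1)) j z = 0
      have e3 : dY (L D v.1) = fun z => dX (dX (dY v.1)) z + D.lam * D.f z.re * dY v.1 z := by
        unfold L
        rw [dY_add (dX_smooth (dX_smooth s1)) ((lf_smooth D).mul s1), dY_lfm D s1,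
          dXY s1, dXY (dX_smooth s1)]
      rw [e3, P_add (dX_smooth (dX_smooth (dY_smooth s1))) ((lf_smooth D).mul (dY_smooth s1))]
      have a1 := P_mul_zero j (lf_smooth D) (dY_smooth s1) (z := z) (fun i _ => (hv' i).2)
      have a2 := (hv' (j + 2)).2
      rw [P_succ', P_succ'] at a2
      simp only [a1, a2, add_zero]
  have hne' : I ≠ ⊥ := by
    intro h0
    have h1 : (⟨φ, h⟩ : E D) ∈ I := fun j =>
      ⟨(hz (j + 1)).1 j (by omega), (hz (j + 2)).2 j (by omega)⟩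
    rw [h0, Submodule.mem_bot] at h1
    exact hne (congrArg Subtype.val h1)
  obtain ⟨ψ, hψI, hψ0, μ, hμ⟩ := inv_eig D I hI hne'
  have hψ : ∀ j, P ψ.1 j z = 0 ∧ P (dY ψ.1) j z = 0 := hψI
  apply hψ0
  apply Subtype.ext
  exact zero_of_data D (z := z) ψ.2 hμ (hψ 0).1 (hψ 1).1 (hψ 0).2 (hψ 1).2

theorem fd_eq {g : ℂ → ℝ} (z v : ℂ) : fderiv ℝ g z v = dX g z * v.re + dY g z * v.im := by
  have : v = v.re • (1 : ℂ) + v.im • Complex.I := by
    apply Complex.ext <;> simp
  conv_lhs => rw [this]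
  rw [map_add, map_smul, map_smul]
  simp only [dX, dY, smul_eq_mul]; ring

theorem isolated {φ : ℂ → ℝ} (h : Sol D φ) (k : ℕ) {z : ℂ} (hz : z ∈ TT φ (k + 2))
    (hz' : z ∉ TT φ (k + 3)) : ∀ᶠ w in 𝓝 z, w ∈ TT φ (k + 2) → w = z := by
  have hs := h.smooth
  set α := P φ (k + 2) z with hα
  set β := P (dY φ) (k + 1) z with hβ
  have hαβ : 0 < α ^ 2 + β ^ 2 := by
    by_contra hcon
    have h1 : α = 0 := by nlinarith [sq_nonneg α, sq_nonneg β]
    have h2 : β = 0 := by nlinarith [sq_nonneg α, sq_nonneg β]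
    apply hz'
    constructor
    · intro j hj
      rcases Nat.lt_succ_iff_lt_or_eq.1 hj with h3 | h3
      · exact hz.1 j h3
      · rw [h3]; exact h1
    · intro j hj
      rcases Nat.lt_succ_iff_lt_or_eq.1 (Nat.lt_of_succ_lt_succ hj) with h3 | h3
      · exact hz.2 j (by omega)
      · rw [h3]; exact h2
  have g1s := P_smooth hs (k + 1)
  have g2s := P_smooth (dY_smooth hs) k
  have e1 : dX (P φ (k + 1)) z = α := by rw [← P_succ]
  have e2 : dY (P φ (k + 1)) z = β := by rw [← P_dY hs]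
  have e3 : dX (P (dY φ) k) z = β := by rw [← P_succ]
  have e4 : dY (P (dY φ) k) z = -α := by
    rw [← P_dY (dY_smooth hs)]
    have e5 : dY (dY φ) = fun z => (-1) * dX (dX φ) z +
        (fun z : ℂ => (-1) * (D.lam * D.f z.re + D.lam * D.h z.im)) z * φ z := by
      funext w
      have := h.pde w
      simp only [L, B] at this
      simp only
      linarith
    have s3 : ContDiff ℝ ∞ (fun z : ℂ => (-1) * (D.lam * D.f z.re + D.lam * D.h z.im)) :=
      contDiff_const.mul ((lf_smooth D).add (lh_smooth D))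
    rw [e5, P_add (contDiff_const.mul (dX_smooth (dX_smooth hs))) (s3.mul hs),
      P_smul (dX_smooth (dX_smooth hs))]
    have a1 := P_mul_zero k s3 hs (z := z) (fun i hi => hz.1 i (by omega))
    have a2 : P (dX (dX φ)) k z = α := by rw [hα, P_succ', P_succ']
    simp only at a1 ⊢
    rw [a1, a2]; ring
  have z1 : P φ (k + 1) z = 0 := hz.1 _ (by omega)
  have z2 : P (dY φ) k z = 0 := hz.2 _ (by omega)
  set c := Real.sqrt (α ^ 2 + β ^ 2) / 2 with hc
  have hc0 : 0 < c := by rw [hc]; positivity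
  have hc2 : c ^ 2 = (α ^ 2 + β ^ 2) / 4 := by
    rw [hc, div_pow, Real.sq_sqrt hαβ.le]; norm_num
  have d1 := ((diff_of g1s z).hasFDerivAt.isLittleO).def hc0
  have d2 := ((diff_of g2s z).hasFDerivAt.isLittleO).def hc0
  filter_upwards [d1, d2] with w hw1 hw2 hwT
  have w1 : P φ (k + 1) w = 0 := hwT.1 _ (by omega)
  have w2 : P (dY φ) k w = 0 := hwT.2 _ (by omega)
  rw [w1, z1, fd_eq, e1, e2] at hw1
  rw [w2, z2, fd_eq, e3, e4] at hw2
  set v := w - z with hv
  have hn : ‖v‖ ^ 2 = v.re ^ 2 + v.im ^ 2 := by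
    rw [← Complex.normSq_eq_norm_sq, Complex.normSq_apply]; ring
  simp only [sub_zero, zero_sub, norm_neg, Real.norm_eq_abs, Complex.norm_real] at hw1 hw2
  have q1 : (α * v.re + β * v.im) ^ 2 ≤ c ^ 2 * ‖v‖ ^ 2 := by
    rw [← sq_abs, ← mul_pow]
    exact pow_le_pow_left₀ (abs_nonneg _) hw1 2
  have q2 : (β * v.re + -α * v.im) ^ 2 ≤ c ^ 2 * ‖v‖ ^ 2 := by
    rw [← sq_abs, ← mul_pow]
    exact pow_le_pow_left₀ (abs_nonneg _) hw2 2
  have q3 : (α ^ 2 + β ^ 2) * ‖v‖ ^ 2 ≤ 2 * (c ^ 2 * ‖v‖ ^ 2) := by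
    rw [hn] at q1 q2 ⊢
    nlinarith
  rw [hc2] at q3
  have q4 : ‖v‖ ^ 2 = 0 := by
    by_contra hne
    have : 0 < ‖v‖ ^ 2 := lt_of_le_of_ne (sq_nonneg _) (Ne.symm hne)
    have := mul_pos hαβ this
    nlinarith
  have q5 : v = 0 := by
    rw [← norm_eq_zero]
    exact pow_eq_zero_iff (two_ne_zero) |>.1 q4
  exact sub_eq_zero.1 q5

theorem sing_countable {φ : ℂ → ℝ} (h : Sol D φ) (hne : φ ≠ 0) :
    {z : ℂ | φ z = 0 ∧ dX φ z = 0 ∧ dY φ z = 0}.Countable := by
  have h1 : {z : ℂ | φ z = 0 ∧ dX φ z = 0 ∧ dY φ z = 0} ⊆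
      ⋃ k : ℕ, (TT φ (k + 2) \ TT φ (k + 3)) := by
    intro z hz
    have h2 : z ∈ TT φ 2 := by
      constructor
      · intro j hj
        have : j = 0 ∨ j = 1 := by omega
        rcases this with rfl | rfl
        · exact hz.1
        · exact hz.2.1
      · intro j hj
        have : j = 0 := by omega
        subst this
        exact hz.2.2
    by_contra hcon
    simp only [mem_iUnion, mem_diff, not_exists, not_and, not_not] at hcon
    have h3 : ∀ k, z ∈ TT φ (k + 2) := by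
      intro k
      induction k with
      | zero => exact h2
      | succ k ih => exact hcon k ih
    refine no_inf D h hne z fun m => ?_
    exact ⟨fun j hj => (h3 m).1 j (by omega), fun j hj => (h3 m).2 j (by omega)⟩
  refine (countable_iUnion fun k => ?_).mono h1
  obtain ⟨t, ht, htc, hcov⟩ := TopologicalSpace.countable_cover_nhdsWithin
    (s := TT φ (k + 2) \ TT φ (k + 3)) (f := fun z => {w | w ∈ TT φ (k + 2) → w = z})
    (fun z hz => mem_nhdsWithin_of_mem_nhds (isolated D h k hz.1 hz.2))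
  refine htc.mono fun w hw => ?_
  have := hcov hw
  simp only [mem_iUnion, mem_setOf_eq] at this
  obtain ⟨z, hz, hwz⟩ := this
  rw [hwz hw.1]
  exact hz

end Pool.Agent.H900R3.Liou
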