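import Pool.Agent.H900R3.Liou.Max

open Set Filter Topology MeasureTheory
open scoped ContDiff Interval

namespace Pool.Agent.H900R3.Liou

theorem fl_mem' {a : ℝ} (ha : 0 < a) (x : ℝ) : x - ⌊x / a⌋ * a ∈ Ico 0 a := by
  have h1 := Int.floor_le (x / a)
  have h2 := Int.lt_floor_add_one (x / a)
  rw [le_div_iff₀ ha] at h1
  rw [div_lt_iff₀ ha] at h2
  constructor <;> linarith

theorem per_int {v : ℝ → ℝ} {a : ℝ} (hp : ∀ x, v (x + a) = v x) (x : ℝ) (n : ℤ) :
    v (x - n * a) = v x := by
  have : Function.Periodic v a := hp
  exact this.sub_int_mul_eq n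

theorem per_le {v v1 k : ℝ → ℝ} {a : ℝ} (ha : 0 < a) (h1 : ∀ x, HasDerivAt v (v1 x) x)
    (h2 : ∀ x, HasDerivAt v1 (k x * v x) x) (hp : ∀ x, v (x + a) = v x) (hk : ∀ x, 0 < k x)
    (x : ℝ) : v x ≤ 0 := by
  have hc : ContinuousOn v (Icc 0 a) := fun x _ => (h1 x).continuousAt.continuousWithinAt
  obtain ⟨m, hm, hmax⟩ := isCompact_Icc.exists_isMaxOn (⟨0, by simp [ha.le]⟩ : (Icc 0 a).Nonempty) hc
  have h3 : ∀ x, v x ≤ v m := by
    intro x
    rw [← per_int hp x ⌊x / a⌋]
    exact hmax (Ico_subset_Icc_self (fl_mem' ha x))
  have h4 : IsLocalMax v m := Eventually.of_forall h3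
  have h5 := snd_max h1 h2 h4
  have h6 : v m ≤ 0 := by
    by_contra h7
    push Not at h7
    have := mul_pos (hk m) h7
    linarith
  exact (h3 x).trans h6

theorem per_zero {v v1 k : ℝ → ℝ} {a : ℝ} (ha : 0 < a) (h1 : ∀ x, HasDerivAt v (v1 x) x)
    (h2 : ∀ x, HasDerivAt v1 (k x * v x) x) (hp : ∀ x, v (x + a) = v x) (hk : ∀ x, 0 < k x)
    (x : ℝ) : v x = 0 := by
  apply le_antisymm (per_le ha h1 h2 hp hk x)
  have := per_le (v := fun x => - v x) (v1 := fun x => - v1 x) (k := k) ha
    (fun x => (h1 x).neg) (fun x => by
      have := (h2 x).neg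
      exact this.congr_deriv (by ring)) (fun x => by simp [hp x]) hk x
  linarith

/-- local signs near a simple zero -/
theorem sign_right {g g1 : ℝ → ℝ} {z B : ℝ} (h : HasDerivAt g (g1 z) z) (hz : g z = 0)
    (hs : g1 z ≠ 0) (hB : z < B) : ∃ r, z < r ∧ r < B ∧ 0 < g r * g1 z := by
  have h1 := (hasDerivAt_iff_tendsto_slope.1 h)
  have h2 : Tendsto (fun r => slope g z r * g1 z) (𝓝[≠] z) (𝓝 (g1 z * g1 z)) :=
    h1.mul_const _
  have h3 : ∀ᶠ r in 𝓝[≠] z, 0 < slope g z r * g1 z :=
    h2.eventually (lt_mem_nhds (mul_self_pos.2 hs))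
  have h4 : ∀ᶠ r in 𝓝[>] z, 0 < slope g z r * g1 z :=
    h3.filter_mono (nhdsWithin_mono _ fun r hr => ne_of_gt hr)
  have h5 : ∀ᶠ r in 𝓝[>] z, r ∈ Ioo z B := Ioo_mem_nhdsGT hB
  obtain ⟨r, hr1, hr2⟩ := (h4.and h5).exists
  refine ⟨r, hr2.1, hr2.2, ?_⟩
  rw [slope_def_field, hz, sub_zero] at hr1
  have h6 : 0 < r - z := by linarith [hr2.1]
  have : g r * g1 z = (r - z) * (g r / (r - z) * g1 z) := by field_simp
  rw [this]
  exact mul_pos h6 hr1

theorem sign_left {g g1 : ℝ → ℝ} {z A : ℝ} (h : HasDerivAt g (g1 z) z) (hz : g z = 0)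
    (hs : g1 z ≠ 0) (hA : A < z) : ∃ l, A < l ∧ l < z ∧ g l * g1 z < 0 := by
  have h1 := (hasDerivAt_iff_tendsto_slope.1 h)
  have h2 : Tendsto (fun r => slope g z r * g1 z) (𝓝[≠] z) (𝓝 (g1 z * g1 z)) :=
    h1.mul_const _
  have h3 : ∀ᶠ r in 𝓝[≠] z, 0 < slope g z r * g1 z :=
    h2.eventually (lt_mem_nhds (mul_self_pos.2 hs))
  have h4 : ∀ᶠ r in 𝓝[<] z, 0 < slope g z r * g1 z :=
    h3.filter_mono (nhdsWithin_mono _ fun r hr => ne_of_lt hr)
  have h5 : ∀ᶠ r in 𝓝[<] z, r ∈ Ioo A z := Ioo_mem_nhdsLT hA
  obtain ⟨r, hr1, hr2⟩ := (h4.and h5).exists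
  refine ⟨r, hr2.1, hr2.2, ?_⟩
  rw [slope_def_field, hz, sub_zero] at hr1
  have h6 : r - z < 0 := by linarith [hr2.2]
  have h7 : r - z ≠ 0 := h6.ne
  have : g r * g1 z = (r - z) * (g r / (r - z) * g1 z) := by field_simp
  rw [this]
  exact mul_neg_of_neg_of_pos h6 hr1

/-- simple zeros produce alternating points -/
theorem alt_of_simple {g g1 : ℝ → ℝ} (h1 : ∀ x, HasDerivAt g (g1 x) x) {A : ℝ} (u : Finset ℝ) :
    ∀ B, (∀ z ∈ u, A < z ∧ z < B ∧ g z = 0 ∧ g1 z ≠ 0) → u.Nonempty → Alt g u.card A B := by
  induction u using Finset.induction_on_max with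
  | empty => intro B _ h; exact absurd h (by simp)
  | insert z u hmax ih =>
    intro B hB _
    obtain ⟨b1, b2, b3, b4⟩ := hB z (Finset.mem_insert_self _ _)
    have hzu : z ∉ u := fun h => lt_irrefl _ (hmax z h)
    rw [Finset.card_insert_of_notMem hzu]
    rcases u.eq_empty_or_nonempty with hu | hu
    · subst hu
      obtain ⟨l, l1, l2, l3⟩ := sign_left (h1 z) b3 b4 b1
      obtain ⟨r, r1, r2, r3⟩ := sign_right (h1 z) b3 b4 b2
      refine ⟨fun i => if i = 0 then l else r, ?_, ?_, ?_⟩
      · intro i _
        by_cases hi : i = 0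
        · simp only [hi, if_true]; constructor <;> linarith
        · simp only [hi, if_false]; constructor <;> linarith
      · intro i hi
        have : i = 0 := by simpa using hi
        subst this
        simp; linarith
      · intro i hi
        have : i = 0 := by simpa using hi
        subst this
        simp only [if_true, Nat.zero_add, one_ne_zero, if_false]
        by_contra hcon
        push Not at hcon
        have := mul_neg_of_neg_of_pos l3 r3
        have e : g l * g1 z * (g r * g1 z) = (g l * g r) * (g1 z * g1 z) := by ring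
        rw [e] at this
        have := mul_nonneg hcon (mul_self_nonneg (g1 z))
        linarith
    · obtain ⟨B', hB'1, hB'2⟩ := exists_between (hmax _ (u.max'_mem hu))
      have hB'u : ∀ x ∈ u, A < x ∧ x < B' ∧ g x = 0 ∧ g1 x ≠ 0 := by
        intro x hx
        have := hB x (Finset.mem_insert_of_mem hx)
        exact ⟨this.1, lt_of_le_of_lt (u.le_max' x hx) hB'1, this.2.2⟩
      obtain ⟨t, t1, t2, t3⟩ := ih B' hB'u hu
      have hAB' : A < B' := by
        obtain ⟨x, hx⟩ := hu
        have := hB'u x hx
        linarith [this.1, this.2.1]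
      obtain ⟨l, l1, l2, l3⟩ := sign_left (h1 z) b3 b4 hB'2
      obtain ⟨r, r1, r2, r3⟩ := sign_right (h1 z) b3 b4 b2
      have hlr : g l * g r < 0 := by
        by_contra hcon
        push Not at hcon
        have := mul_neg_of_neg_of_pos l3 r3
        have e : g l * g1 z * (g r * g1 z) = (g l * g r) * (g1 z * g1 z) := by ring
        rw [e] at this
        have := mul_nonneg hcon (mul_self_nonneg (g1 z))
        linarith
      set N := u.card with hN
      have hN1 : 1 ≤ N := Finset.card_pos.2 hu
      have htN : g (t N) ≠ 0 := by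
        intro h0
        have := t3 (N - 1) (by omega)
        rw [Nat.sub_add_cancel hN1, h0] at this
        simp at this
      have htNB := t1 N le_rfl
      rcases lt_or_gt_of_ne (mul_ne_zero htN b4) with hs | hs
      · -- different signs
        have hs' : g (t N) * g r < 0 := by
          by_contra hcon
          push Not at hcon
          have := mul_neg_of_neg_of_pos hs r3
          have e : g (t N) * g1 z * (g r * g1 z) = (g (t N) * g r) * (g1 z * g1 z) := by ring
          rw [e] at this
          have := mul_nonneg hcon (mul_self_nonneg (g1 z))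
          linarith
        refine ⟨fun i => if i ≤ N then t i else r, ?_, ?_, ?_⟩
        · intro i _
          by_cases hi : i ≤ N
          · simp only [hi, if_true]
            have := t1 i hi
            constructor <;> linarith [this.1, this.2]
          · simp only [hi, if_false]; constructor <;> linarith
        · intro i hi
          have hi' : i ≤ N := by omega
          by_cases hi2 : i + 1 ≤ N
          · simp only [hi', hi2, if_true]; exact t2 i (by omega)
          · have : i = N := by omega
            subst this
            simp only [le_refl, if_true, hi2, if_false]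
            linarith [htNB.2]
        · intro i hi
          have hi' : i ≤ N := by omega
          by_cases hi2 : i + 1 ≤ N
          · simp only [hi', hi2, if_true]; exact t3 i (by omega)
          · have : i = N := by omega
            subst this
            simp only [le_refl, if_true, hi2, if_false]
            exact hs'
      · -- same signs
        have hs' : g (t N) * g l < 0 := by
          by_contra hcon
          push Not at hcon
          have := mul_neg_of_pos_of_neg hs l3
          have e : g (t N) * g1 z * (g l * g1 z) = (g (t N) * g l) * (g1 z * g1 z) := by ring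
          rw [e] at this
          have := mul_nonneg hcon (mul_self_nonneg (g1 z))
          linarith
        refine ⟨fun i => if i < N then t (i + 1) else if i = N then l else r, ?_, ?_, ?_⟩
        · intro i _
          by_cases hi : i < N
          · simp only [hi, if_true]
            have := t1 (i + 1) hi
            constructor <;> linarith [this.1, this.2]
          · by_cases hi2 : i = N
            · simp only [hi2, lt_irrefl, if_false, if_true]; constructor <;> linarith
            · simp only [hi, hi2, if_false]; constructor <;> linarith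
        · intro i hi
          by_cases hi1 : i + 1 < N
          · have hi0 : i < N := by omega
            simp only [hi0, hi1, if_true]; exact t2 (i + 1) hi1
          · by_cases hi2 : i + 1 = N
            · have hi0 : i < N := by omega
              simp only [hi0, if_true, hi2, lt_irrefl, if_false]
              linarith [htNB.2]
            · have hi3 : i = N := by omega
              subst hi3
              have a1 : ¬ (N + 1 < N) := by omega
              have a2 : ¬ (N + 1 = N) := by omega
              simp only [lt_irrefl, if_false, if_true, a1, a2]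
              linarith
        · intro i hi
          by_cases hi1 : i + 1 < N
          · have hi0 : i < N := by omega
            simp only [hi0, hi1, if_true]; exact t3 (i + 1) hi1
          · by_cases hi2 : i + 1 = N
            · have hi0 : i < N := by omega
              simp only [hi0, if_true, hi2, lt_irrefl, if_false]
              exact hs'
            · have hi3 : i = N := by omega
              subst hi3
              have a1 : ¬ (N + 1 < N) := by omega
              have a2 : ¬ (N + 1 = N) := by omega
              simp only [lt_irrefl, if_false, if_true, a1, a2]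
              exact hlr

/-- counting by gaps -/
theorem count_gap {g g1 : ℝ → ℝ} (h1 : ∀ x, HasDerivAt g (g1 x) x) {A B γ : ℝ} {m : ℕ}
    (h : Alt g (m + 1) A B) (hgap : ∀ ξ η, ξ < η → g ξ = 0 → g η = 0 → γ < η - ξ) :
    m * γ ≤ B - A := by
  obtain ⟨t, ht1, ht2, ht3⟩ := h
  have hz : ∀ i, ∃ z, i < m + 1 → z ∈ Ioo (t i) (t (i + 1)) ∧ g z = 0 := by
    intro i
    by_cases hi : i < m + 1
    · obtain ⟨z, hz, hz0⟩ := alt_zero h1 (ht2 i hi) (ht3 i hi)
      exact ⟨z, fun _ => ⟨hz, hz0⟩⟩
    · exact ⟨0, fun h => absurd h hi⟩
  choose z hz using hz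
  have key : ∀ i, i < m + 1 → z 0 + i * γ ≤ z i := by
    intro i
    induction i with
    | zero => intro _; simp
    | succ i ih =>
      intro hi
      have a1 := ih (by omega)
      have a2 := hz i (by omega)
      have a3 := hz (i + 1) hi
      have a4 := hgap (z i) (z (i + 1)) (by linarith [a2.1.2, a3.1.1]) a2.2 a3.2
      push_cast
      linarith
  have a1 := key m (by omega)
  have a2 := hz m (by omega)
  have a3 := hz 0 (by omega)
  have a4 := (ht1 (m + 1) le_rfl).2
  have a5 := (ht1 0 (by omega)).1
  linarith [a2.1.2, a3.1.1]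

end Pool.Agent.H900R3.Liou
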